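import Mathlib

/-! Nondegenerate critical points on slices: second derivatives, small perturbations. -/

open scoped Topology ContDiff
open Set Metric

noncomputable section

namespace Run7.h21.GO

section snd

variable {V W : Type*} [NormedAddCommGroup V] [NormedSpace ℝ V] [NormedAddCommGroup W]
  [NormedSpace ℝ W]

lemma eventually_diff {F : Type*} [NormedAddCommGroup F] [NormedSpace ℝ F] {f : V → F} {z : V}
    (hf : ContDiffAt ℝ 2 f z) : ∀ᶠ y in 𝓝 z, DifferentiableAt ℝ f y := by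
  filter_upwards [hf.eventually (by simp)] with y hy
  exact hy.differentiableAt (by simp)

lemma diff_fderiv {F : Type*} [NormedAddCommGroup F] [NormedSpace ℝ F] {f : V → F} {z : V}
    (hf : ContDiffAt ℝ 2 f z) : DifferentiableAt ℝ (fderiv ℝ f) z :=
  (hf.fderiv_right (m := 1) (by norm_num)).differentiableAt (by simp)

lemma near_of_contDiffAt {F : Type*} [NormedAddCommGroup F] [NormedSpace ℝ F] {D : V → F} {z : V}
    (h : ContDiffAt ℝ 0 D z) {η : ℝ} (hη : 0 < η) : ∀ᶠ y in 𝓝 z, ‖D y - D z‖ < η := by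
  have h2 := (Metric.tendsto_nhds.1 h.continuousAt) η hη
  filter_upwards [h2] with y hy
  rwa [dist_eq_norm] at hy

/-- the second derivative of a composition at a critical point -/
lemma snd_comp {f : W → ℝ} {ψ : V → W} {z : V} (hf : ContDiffAt ℝ 2 f (ψ z))
    (hψ : ContDiffAt ℝ 2 ψ z) (h0 : fderiv ℝ f (ψ z) = 0) (a b : V) :
    fderiv ℝ (fderiv ℝ (f ∘ ψ)) z a b =
      fderiv ℝ (fderiv ℝ f) (ψ z) (fderiv ℝ ψ z a) (fderiv ℝ ψ z b) := by
  have h1 : ∀ᶠ y in 𝓝 z, fderiv ℝ (f ∘ ψ) y = (fderiv ℝ f (ψ y)).comp (fderiv ℝ ψ y) := by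
    filter_upwards [hψ.continuousAt.eventually (eventually_diff hf), eventually_diff hψ]
      with y hy1 hy2
    exact fderiv_comp y hy1 hy2
  have h2 : HasFDerivAt (fun y => fderiv ℝ f (ψ y))
      ((fderiv ℝ (fderiv ℝ f) (ψ z)).comp (fderiv ℝ ψ z)) z :=
    HasFDerivAt.comp z (diff_fderiv hf).hasFDerivAt (hψ.differentiableAt (by simp)).hasFDerivAt
  have h3 := h2.clm_comp (diff_fderiv hψ).hasFDerivAt
  have h4 : HasFDerivAt (fderiv ℝ (f ∘ ψ)) _ z := h3.congr_of_eventuallyEq h1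
  rw [h4.fderiv]
  simp [h0]

/-- the second derivative of a product -/
lemma snd_mul {a b : V → ℝ} {z : V} (ha : ContDiffAt ℝ 2 a z) (hb : ContDiffAt ℝ 2 b z)
    (u v : V) :
    fderiv ℝ (fderiv ℝ (fun y => a y * b y)) z u v =
      a z * fderiv ℝ (fderiv ℝ b) z u v + fderiv ℝ a z u * fderiv ℝ b z v +
        (b z * fderiv ℝ (fderiv ℝ a) z u v + fderiv ℝ b z u * fderiv ℝ a z v) := by
  have h1 : ∀ᶠ y in 𝓝 z, fderiv ℝ (fun y => a y * b y) y = a y • fderiv ℝ b y + b y • fderiv ℝ a y := by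
    filter_upwards [eventually_diff ha, eventually_diff hb] with y hy1 hy2
    exact fderiv_mul hy1 hy2
  have h2 := (ha.differentiableAt (by simp)).hasFDerivAt.smul (diff_fderiv hb).hasFDerivAt
  have h3 := (hb.differentiableAt (by simp)).hasFDerivAt.smul (diff_fderiv ha).hasFDerivAt
  have h4 : HasFDerivAt (fderiv ℝ (fun y => a y * b y)) _ z :=
    (h2.add h3).congr_of_eventuallyEq h1
  rw [h4.fderiv]
  simp

lemma fst_mul {a b : V → ℝ} {z : V} (ha : DifferentiableAt ℝ a z) (hb : DifferentiableAt ℝ b z)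
    (u : V) : fderiv ℝ (fun y => a y * b y) z u = a z * fderiv ℝ b z u + b z * fderiv ℝ a z u := by
  rw [show (fun y => a y * b y) = a * b from rfl, fderiv_mul ha hb]
  simp

/-- the second derivative of a function with a minimum -/
lemma snd_nonneg {f : ℝ → ℝ} (hf : ContDiffAt ℝ 2 f 0) (hmin : ∀ᶠ t in 𝓝 (0:ℝ), f 0 ≤ f t) :
    0 ≤ deriv (deriv f) 0 := by
  by_contra hneg
  push Not at hneg
  have h0 : deriv f 0 = 0 := by
    have : IsLocalMin f 0 := hmin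
    exact this.deriv_eq_zero
  have h1 : IsLocalMax f 0 := isLocalMax_of_deriv_deriv_neg hneg h0 hf.continuousAt
  have h2 : f =ᶠ[𝓝 0] fun _ => f 0 := by
    filter_upwards [hmin, h1] with t h3 h4
    exact le_antisymm h4 h3
  have h3 : deriv f =ᶠ[𝓝 0] fun _ => 0 := by
    filter_upwards [h2.eventuallyEq_nhds] with t ht
    rw [ht.deriv_eq]
    exact deriv_const _ _
  rw [h3.deriv_eq, deriv_const] at hneg
  exact lt_irrefl _ hneg

end snd

section pencil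

variable {G : Type*} [NormedAddCommGroup G] [NormedSpace ℝ G] [FiniteDimensional ℝ G]

/-- a small multiple of a nondegenerate form makes a form nondegenerate -/
lemma pencil (B₀ B₁ : G →ₗ[ℝ] G →ₗ[ℝ] ℝ) (h1 : ∀ u, (∀ v, B₁ u v = 0) → u = 0) :
    ∃ ε₀ > (0:ℝ), ∀ ε : ℝ, ε ≠ 0 → |ε| < ε₀ →
      ∀ u, (∀ v, B₀ u v + ε * B₁ u v = 0) → u = 0 := by
  have hinj : Function.Injective B₁ := by
    rw [injective_iff_map_eq_zero]
    intro u hu
    exact h1 u fun v => by rw [hu]; rfl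
  let e : G ≃ₗ[ℝ] (G →ₗ[ℝ] ℝ) := LinearEquiv.ofInjectiveOfFinrankEq B₁ hinj
    (Subspace.dual_finrank_eq (K := ℝ) (V := G)).symm
  have he : ∀ u, e u = B₁ u := fun u => rfl
  let T : Module.End ℝ G := e.symm.toLinearMap ∘ₗ B₀
  have hfin := Module.End.finite_hasEigenvalue T
  have hcl : IsClosed ({μ | T.HasEigenvalue μ} \ {0}) := (hfin.subset diff_subset).isClosed
  have hmem : ({μ | T.HasEigenvalue μ} \ {0})ᶜ ∈ 𝓝 (0:ℝ) :=
    hcl.isOpen_compl.mem_nhds (by simp)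
  obtain ⟨ε₀, hε₀, hball⟩ := Metric.mem_nhds_iff.1 hmem
  refine ⟨ε₀, hε₀, fun ε hε hεε u hu => ?_⟩
  by_contra hne
  have h2 : T u = (-ε) • u := by
    have h3 : B₀ u = (-ε) • e u := by
      refine LinearMap.ext fun v => ?_
      rw [he, LinearMap.smul_apply, smul_eq_mul]
      linarith [hu v]
    show e.symm (B₀ u) = _
    rw [h3, map_smul, e.symm_apply_apply]
  have h3 : T.HasEigenvalue (-ε) :=
    Module.End.hasEigenvalue_of_hasEigenvector ⟨Module.End.mem_eigenspace_iff.2 h2, hne⟩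
  have h4 : -ε ∈ ball (0:ℝ) ε₀ := by
    rw [mem_ball_zero_iff, norm_neg, Real.norm_eq_abs]
    exact hεε
  exact hball h4 ⟨h3, by simpa using hε⟩

end pencil

section near

variable {E G : Type*} [NormedAddCommGroup E] [NormedSpace ℝ E] [FiniteDimensional ℝ E]
  [NormedAddCommGroup G] [NormedSpace ℝ G] [FiniteDimensional ℝ G]

/-- **Persistence of nondegenerate critical points on slices.** -/
theorem exists_crit_near (j : G →L[ℝ] E) {z₀ : E} {f₀ : E → ℝ} (hf₀ : ContDiffAt ℝ ∞ f₀ z₀)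
    (h0 : fderiv ℝ f₀ z₀ = 0)
    (hnd : ∀ u : G, (∀ v : G, fderiv ℝ (fderiv ℝ f₀) z₀ (j u) (j v) = 0) → u = 0)
    {W : Set G} (hW : W ∈ 𝓝 (0:G)) {r₁ : ℝ} (hr₁ : 0 < r₁) :
    ∃ r > (0:ℝ), r ≤ r₁ ∧ ∃ δ > (0:ℝ), ∀ f : E → ℝ, (∀ z ∈ ball z₀ r, ContDiffAt ℝ 2 f z) →
      (∀ z ∈ ball z₀ r, ‖fderiv ℝ f z - fderiv ℝ f₀ z‖ ≤ δ ∧
        ‖fderiv ℝ (fderiv ℝ f) z - fderiv ℝ (fderiv ℝ f₀) z‖ ≤ δ) →
      ∃ e ∈ W, z₀ + j e ∈ ball z₀ r ∧ (∀ v, fderiv ℝ f (z₀ + j e) (j v) = 0) ∧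
        ∀ u : G, (∀ v : G, fderiv ℝ (fderiv ℝ f) (z₀ + j e) (j u) (j v) = 0) → u = 0 := by
  by_cases hG : ∀ u : G, u = 0
  · refine ⟨r₁, hr₁, le_rfl, 1, one_pos, fun f _ _ => ⟨0, mem_of_mem_nhds hW, ?_, ?_, ?_⟩⟩
    · rw [map_zero, add_zero]
      exact mem_ball_self hr₁
    · intro v
      rw [hG v, map_zero, map_zero]
    · exact fun u _ => hG u
  set J : (E →L[ℝ] ℝ) →L[ℝ] (G →L[ℝ] ℝ) := (ContinuousLinearMap.compL ℝ G E ℝ).flip j with hJ
  have hJa : ∀ (a : E →L[ℝ] ℝ) (v : G), J a v = a (j v) := fun a v => rfl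
  set K : (E →L[ℝ] E →L[ℝ] ℝ) → (G →L[ℝ] (G →L[ℝ] ℝ)) := fun D => J.comp (D.comp j) with hK
  have hKa : ∀ D (u v : G), K D u v = D (j u) (j v) := fun D u v => rfl
  set B : G →L[ℝ] (G →L[ℝ] ℝ) := K (fderiv ℝ (fderiv ℝ f₀) z₀) with hB
  have hBinj : Function.Injective B.toLinearMap := by
    rw [injective_iff_map_eq_zero]
    intro u hu
    refine hnd u fun v => ?_
    have : B u v = 0 := by
      have h1 : B u = 0 := hu
      rw [h1]; rfl
    exact this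
  have hfr : Module.finrank ℝ G = Module.finrank ℝ (G →L[ℝ] ℝ) := by
    rw [← (LinearMap.toContinuousLinearMap (𝕜 := ℝ) (E := G) (F' := ℝ)).finrank_eq]
    exact (Subspace.dual_finrank_eq (K := ℝ) (V := G)).symm
  let Be : G ≃L[ℝ] (G →L[ℝ] ℝ) :=
    (LinearEquiv.ofInjectiveOfFinrankEq B.toLinearMap hBinj hfr).toContinuousLinearEquiv
  have hBe : (Be : G →L[ℝ] (G →L[ℝ] ℝ)) = B := ContinuousLinearMap.ext fun _ => rfl
  set N : ℝ := ‖(Be.symm : (G →L[ℝ] ℝ) →L[ℝ] G)‖ + 1 with hN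
  have hNpos : 0 < N := by positivity
  have hNB : ∀ u : G, ‖u‖ ≤ N * ‖B u‖ := by
    intro u
    have h1 : u = Be.symm (B u) := by
      rw [← hBe]
      exact (Be.symm_apply_apply u).symm
    calc ‖u‖ = ‖(Be.symm : (G →L[ℝ] ℝ) →L[ℝ] G) (B u)‖ := by
          conv_lhs => rw [h1]
          rfl
      _ ≤ ‖(Be.symm : (G →L[ℝ] ℝ) →L[ℝ] G)‖ * ‖B u‖ := ContinuousLinearMap.le_opNorm _ _
      _ ≤ N * ‖B u‖ := mul_le_mul_of_nonneg_right (by rw [hN]; linarith) (norm_nonneg _)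
  -- norms
  set Λ : ℝ := ‖J‖ * ‖j‖ + ‖J‖ + ‖j‖ + 1 with hΛ
  have hΛpos : 0 < Λ := by positivity
  have hKn : ∀ D, ‖K D‖ ≤ Λ * ‖D‖ := by
    intro D
    have n1 : 0 ≤ ‖J‖ := norm_nonneg J
    have n2 : 0 ≤ ‖j‖ := norm_nonneg j
    have n3 : 0 ≤ ‖D‖ := norm_nonneg D
    have h1 : ‖K D‖ ≤ ‖J‖ * ‖D.comp j‖ := ContinuousLinearMap.opNorm_comp_le _ _
    have h2 : ‖D.comp j‖ ≤ ‖D‖ * ‖j‖ := ContinuousLinearMap.opNorm_comp_le _ _
    have h3 : ‖J‖ * ‖D.comp j‖ ≤ ‖J‖ * (‖D‖ * ‖j‖) := mul_le_mul_of_nonneg_left h2 n1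
    have h4 : (‖J‖ * ‖j‖) * ‖D‖ ≤ Λ * ‖D‖ := by
      refine mul_le_mul_of_nonneg_right ?_ n3
      rw [hΛ]
      linarith
    calc ‖K D‖ ≤ ‖J‖ * (‖D‖ * ‖j‖) := h1.trans h3
      _ = (‖J‖ * ‖j‖) * ‖D‖ := by ring
      _ ≤ Λ * ‖D‖ := h4
  set η : ℝ := (8 * N * Λ)⁻¹ with hη
  have hηpos : 0 < η := by positivity
  -- the radius
  have hc : ∀ᶠ z in 𝓝 z₀, ‖fderiv ℝ (fderiv ℝ f₀) z - fderiv ℝ (fderiv ℝ f₀) z₀‖ < η := by
    have h1 : ContDiffAt ℝ 1 (fderiv ℝ f₀) z₀ := hf₀.fderiv_right (by norm_cast)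
    have h3 : ContDiffAt ℝ 0 (fderiv ℝ (fderiv ℝ f₀)) z₀ := h1.fderiv_right (by norm_num)
    exact near_of_contDiffAt h3 hηpos
  obtain ⟨r₂, hr₂, hball⟩ := Metric.eventually_nhds_iff_ball.1 hc
  set r : ℝ := min r₁ r₂ with hr
  have hrpos : 0 < r := lt_min hr₁ hr₂
  obtain ⟨ρ₁, hρ₁, hρW⟩ := Metric.mem_nhds_iff.1 hW
  set ρ : ℝ := min (ρ₁ / 2) (r / (2 * Λ)) with hρ
  have hρpos : 0 < ρ := lt_min (by positivity) (by positivity)
  have hρW' : closedBall (0:G) ρ ⊆ W := by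
    intro e he
    apply hρW
    rw [mem_closedBall_zero_iff] at he
    rw [mem_ball_zero_iff]
    have : ρ ≤ ρ₁ / 2 := min_le_left _ _
    linarith
  have hρr : ∀ e ∈ closedBall (0:G) ρ, z₀ + j e ∈ ball z₀ r := by
    intro e he
    rw [mem_closedBall_zero_iff] at he
    rw [mem_ball, dist_eq_norm, add_sub_cancel_left]
    have h1 : ‖j e‖ ≤ ‖j‖ * ‖e‖ := j.le_opNorm e
    have h2 : ‖j‖ * ‖e‖ ≤ Λ * (r / (2 * Λ)) := by
      refine mul_le_mul ?_ (he.trans (min_le_right _ _)) (norm_nonneg _) hΛpos.le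
      rw [hΛ]
      have := mul_nonneg (norm_nonneg J) (norm_nonneg j)
      linarith [norm_nonneg J]
    have h3 : Λ * (r / (2 * Λ)) = r / 2 := by field_simp
    linarith
  set δ : ℝ := min η (ρ / (4 * N * Λ)) with hδ
  have hδpos : 0 < δ := lt_min hηpos (by positivity)
  refine ⟨r, hrpos, min_le_left _ _, δ, hδpos, fun f hf hclose => ?_⟩
  have hz₀r : z₀ ∈ ball z₀ r := mem_ball_self hrpos
  -- the map
  set F : G → (G →L[ℝ] ℝ) := fun e => J (fderiv ℝ f (z₀ + j e)) with hF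
  have hFd : ∀ e ∈ closedBall (0:G) ρ, HasFDerivAt F (K (fderiv ℝ (fderiv ℝ f) (z₀ + j e))) e := by
    intro e he
    have h1 : HasFDerivAt (fun e : G => z₀ + j e) j e := j.hasFDerivAt.const_add z₀
    have h2 : HasFDerivAt (fderiv ℝ f) (fderiv ℝ (fderiv ℝ f) (z₀ + j e)) (z₀ + j e) :=
      (diff_fderiv (hf _ (hρr e he))).hasFDerivAt
    exact J.hasFDerivAt.comp e (HasFDerivAt.comp e h2 h1)
  have hbd : ∀ e ∈ closedBall (0:G) ρ,
      ‖K (fderiv ℝ (fderiv ℝ f) (z₀ + j e)) - B‖ ≤ (4 * N)⁻¹ := by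
    intro e he
    have hz := hρr e he
    have h1 : K (fderiv ℝ (fderiv ℝ f) (z₀ + j e)) - B =
        K (fderiv ℝ (fderiv ℝ f) (z₀ + j e) - fderiv ℝ (fderiv ℝ f₀) (z₀ + j e) +
          (fderiv ℝ (fderiv ℝ f₀) (z₀ + j e) - fderiv ℝ (fderiv ℝ f₀) z₀)) := by
      refine ContinuousLinearMap.ext fun u => ContinuousLinearMap.ext fun v => ?_
      rw [hKa]
      show K _ u v - B u v = _
      rw [hB, hKa, hKa]
      simp
    rw [h1]
    have h2 := (hclose _ hz).2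
    have h3 := hball _ (ball_subset_ball (min_le_right _ _) hz)
    refine (hKn _).trans ?_
    have h4 : ‖fderiv ℝ (fderiv ℝ f) (z₀ + j e) - fderiv ℝ (fderiv ℝ f₀) (z₀ + j e) +
          (fderiv ℝ (fderiv ℝ f₀) (z₀ + j e) - fderiv ℝ (fderiv ℝ f₀) z₀)‖ ≤ η + η := by
      have h5 := norm_add_le (fderiv ℝ (fderiv ℝ f) (z₀ + j e) -
        fderiv ℝ (fderiv ℝ f₀) (z₀ + j e))
        (fderiv ℝ (fderiv ℝ f₀) (z₀ + j e) - fderiv ℝ (fderiv ℝ f₀) z₀)
      have h6 : δ ≤ η := min_le_left _ _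
      linarith
    have h7 : Λ * (η + η) = (4 * N)⁻¹ := by
      rw [hη]
      field_simp
      norm_num
    rw [← h7]
    exact mul_le_mul_of_nonneg_left h4 hΛpos.le
  set c : NNReal := ⟨(4 * N)⁻¹, by positivity⟩ with hcdef
  have hcr : (c : ℝ) = (4 * N)⁻¹ := rfl
  have happ : ApproximatesLinearOn F B (closedBall (0:G) ρ) c := by
    intro x hx y hy
    exact Convex.norm_image_sub_le_of_norm_hasFDerivWithin_le'
      (fun e he => (hFd e he).hasFDerivWithinAt) hbd (convex_closedBall _ _) hy hx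
  have hsymm : (Be : G →L[ℝ] (G →L[ℝ] ℝ)).NonlinearRightInverse := Be.toNonlinearRightInverse
  have hnn : (Be.toNonlinearRightInverse.nnnorm : ℝ) = ‖(Be.symm : (G →L[ℝ] ℝ) →L[ℝ] G)‖ := rfl
  rw [← hBe] at happ
  have hsurj := happ.surjOn_closedBall_of_nonlinearRightInverse Be.toNonlinearRightInverse
    hρpos.le (b := (0:G)) subset_rfl
  have h0mem : (0 : G →L[ℝ] ℝ) ∈ closedBall (F 0)
      (((Be.toNonlinearRightInverse.nnnorm : ℝ)⁻¹ - c) * ρ) := by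
    rw [mem_closedBall, dist_comm, dist_zero_right, hnn, hcr]
    have h1 : ‖F 0‖ ≤ Λ * δ := by
      have h2 : F 0 = J (fderiv ℝ f z₀ - fderiv ℝ f₀ z₀) := by
        show J (fderiv ℝ f (z₀ + j 0)) = _
        rw [h0, sub_zero, map_zero, add_zero]
      rw [h2]
      have h3 := (hclose _ hz₀r).1
      refine (J.le_opNorm _).trans ?_
      refine mul_le_mul ?_ h3 (norm_nonneg _) hΛpos.le
      rw [hΛ]
      have := mul_nonneg (norm_nonneg J) (norm_nonneg j)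
      linarith [norm_nonneg j]
    have h2 : Λ * δ ≤ (4 * N)⁻¹ * ρ := by
      calc Λ * δ ≤ Λ * (ρ / (4 * N * Λ)) := mul_le_mul_of_nonneg_left (min_le_right _ _) hΛpos.le
        _ = (4 * N)⁻¹ * ρ := by field_simp
    have h4 : 0 < ‖(Be.symm : (G →L[ℝ] ℝ) →L[ℝ] G)‖ := by
      rcases (norm_nonneg (Be.symm : (G →L[ℝ] ℝ) →L[ℝ] G)).eq_or_lt with h4 | h4
      · exfalso
        apply hG
        intro u
        have h5 : u = (Be.symm : (G →L[ℝ] ℝ) →L[ℝ] G) (B u) := by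
          rw [← hBe]
          exact (Be.symm_apply_apply u).symm
        have h6 : (Be.symm : (G →L[ℝ] ℝ) →L[ℝ] G) = 0 :=
          (ContinuousLinearMap.opNorm_zero_iff _).1 h4.symm
        rw [h6] at h5
        exact h5
      · exact h4
    have h5 : N⁻¹ ≤ ‖(Be.symm : (G →L[ℝ] ℝ) →L[ℝ] G)‖⁻¹ := by
      apply inv_anti₀ h4
      rw [hN]; linarith
    have h6 : (4 * N)⁻¹ * 2 ≤ N⁻¹ := by
      rw [mul_inv]
      have := inv_pos.2 hNpos
      linarith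
    have h7 : (4 * N)⁻¹ ≤ ‖(Be.symm : (G →L[ℝ] ℝ) →L[ℝ] G)‖⁻¹ - (4 * N)⁻¹ := by linarith
    calc ‖F 0‖ ≤ (4 * N)⁻¹ * ρ := h1.trans h2
      _ ≤ _ := mul_le_mul_of_nonneg_right h7 hρpos.le
  obtain ⟨e, he, hFe⟩ := hsurj h0mem
  refine ⟨e, hρW' he, hρr e he, fun v => ?_, fun u hu => ?_⟩
  · have h1 : F e v = 0 := by rw [hFe]; rfl
    exact h1
  · have h1 : K (fderiv ℝ (fderiv ℝ f) (z₀ + j e)) u = 0 :=
      ContinuousLinearMap.ext fun v => hu v
    have h2 : ‖B u‖ ≤ (4 * N)⁻¹ * ‖u‖ := by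
      have h3 : B u = -((K (fderiv ℝ (fderiv ℝ f) (z₀ + j e)) - B) u) := by
        rw [_root_.sub_apply, h1, zero_sub, neg_neg]
      rw [h3, norm_neg]
      exact (ContinuousLinearMap.le_opNorm _ _).trans
        (mul_le_mul_of_nonneg_right (hbd e he) (norm_nonneg _))
    have h3 := hNB u
    have h4 : N * ‖B u‖ ≤ N * ((4 * N)⁻¹ * ‖u‖) := mul_le_mul_of_nonneg_left h2 hNpos.le
    have h5 : N * ((4 * N)⁻¹ * ‖u‖) = ‖u‖ / 4 := by field_simp
    have h6 : ‖u‖ ≤ 0 := by linarith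
    exact norm_le_zero_iff.1 h6

end near

end Run7.h21.GO
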