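import Mathlib
import Pool.Agent.R775.W13
import Pool.Agent.Run7.h21.GO.Quad

/-! Slices of locally free torus actions. -/

open scoped Topology ContDiff Manifold
open Set Metric Bundle Pool.Agent.Helper186 Pool.Agent.H826R2.Wein Pool.Agent.TH607
  Pool.Agent.R775

noncomputable section

namespace Run7.h21.GO

set_option linter.unusedSectionVars false

universe u

variable {E : Type u} [NormedAddCommGroup E] [NormedSpace ℝ E] [FiniteDimensional ℝ E]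
  {P : Type*} [TopologicalSpace P] [ChartedSpace E P] [IsManifold 𝓘(ℝ, E) ∞ P]
  {β : (x : P) → TangentSpace 𝓘(ℝ, E) x →L[ℝ] ℝ} {m : ℕ} (A : TS β m)

/-- the derivative of the orbit map -/
def XL (x : P) : (Fin m → ℝ) →L[ℝ] E :=
  mfderiv 𝓘(ℝ, Fin m → ℝ) 𝓘(ℝ, E) (fun θ => A.act θ x) 0

lemma XL_apply (x : P) (κ : Fin m → ℝ) : XL A x κ = A.X κ x := rfl

lemma hasFDerivAt_orbit (y : P) :
    HasFDerivAt (𝕜 := ℝ) (E := Fin m → ℝ) (F := E)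
      (fun θ : Fin m → ℝ => (extChartAt 𝓘(ℝ, E) y (A.act θ y) : E)) (XL A y) 0 := by
  set φ := extChartAt 𝓘(ℝ, E) y with hφ
  have h2 : HasMFDerivAt 𝓘(ℝ, Fin m → ℝ) 𝓘(ℝ, E) (fun θ : Fin m → ℝ => A.act θ y) 0
      (show (Fin m → ℝ) →L[ℝ] E from XL A y) :=
    ((A.smooth_left y).mdifferentiableAt (by simp)).hasMFDerivAt
  have h3 : HasMFDerivAt 𝓘(ℝ, E) 𝓘(ℝ, E) φ (A.act 0 y)
      (mfderiv 𝓘(ℝ, E) 𝓘(ℝ, E) φ (A.act 0 y)) := by
    have : MDifferentiableAt 𝓘(ℝ, E) 𝓘(ℝ, E) φ (A.act 0 y) := by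
      rw [A.zero]; exact contMDiffAt_extChartAt.mdifferentiableAt (n := ∞) (by simp)
    exact this.hasMFDerivAt
  have h4 := HasMFDerivAt.comp (0 : Fin m → ℝ) h3 h2
  have h8 : ∀ z : P, z = y → ∀ v : E, (mfderiv 𝓘(ℝ, E) 𝓘(ℝ, E) φ z v : E) = v := by
    intro z hz v
    subst hz
    exact Pool.Agent.Helper186.mfderiv_extChartAt_self z v
  have h6 : HasMFDerivAt 𝓘(ℝ, Fin m → ℝ) 𝓘(ℝ, E)
      (fun θ : Fin m → ℝ => extChartAt 𝓘(ℝ, E) y (A.act θ y)) 0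
      (show (Fin m → ℝ) →L[ℝ] E from XL A y) := by
    refine h4.congr_mfderiv ?_
    refine ContinuousLinearMap.ext fun κ => ?_
    exact h8 _ (A.zero y) _
  exact h6.hasFDerivAt

section param

variable {G : Type*} [NormedAddCommGroup G] [NormedSpace ℝ G] [FiniteDimensional ℝ G]
  (x₀ : P) (j : G →L[ℝ] E)

/-- the point of the slice in the chart -/
def sl (e : G) : E := extChartAt 𝓘(ℝ, E) x₀ x₀ + j e

/-- the parametrisation of a neighbourhood of an orbit -/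
def pm (p : G × (Fin m → ℝ)) : P := A.act p.2 ((extChartAt 𝓘(ℝ, E) x₀).symm (sl x₀ j p.1))

lemma sl_zero : sl x₀ j 0 = extChartAt 𝓘(ℝ, E) x₀ x₀ := by simp [sl]

lemma pm_zero : pm A x₀ j (0, 0) = x₀ := by
  simp only [pm, sl_zero, A.zero]
  exact extChartAt_to_inv x₀

lemma pm_e (e : G) : pm A x₀ j (e, 0) = (extChartAt 𝓘(ℝ, E) x₀).symm (sl x₀ j e) := by
  simp only [pm, A.zero]

lemma act_pm (θ : Fin m → ℝ) (p : G × (Fin m → ℝ)) :
    A.act θ (pm A x₀ j p) = pm A x₀ j (p.1, θ + p.2) := by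
  simp only [pm, A.add]

lemma contDiff_sl : ContDiff ℝ ∞ (sl x₀ j) := contDiff_const.add j.contDiff

lemma hasFDerivAt_sl (e : G) : HasFDerivAt (sl x₀ j) j e := j.hasFDerivAt.const_add _

lemma contMDiffAt_pm {p : G × (Fin m → ℝ)} (hp : sl x₀ j p.1 ∈ (extChartAt 𝓘(ℝ, E) x₀).target) :
    ContMDiffAt 𝓘(ℝ, G × (Fin m → ℝ)) 𝓘(ℝ, E) ∞ (pm A x₀ j) p := by
  set φ := extChartAt 𝓘(ℝ, E) x₀ with hφ
  have hsymm : ContMDiffAt 𝓘(ℝ, E) 𝓘(ℝ, E) ∞ φ.symm (sl x₀ j p.1) :=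
    (contMDiffOn_extChartAt_symm x₀).contMDiffAt ((isOpen_extChartAt_target x₀).mem_nhds hp)
  have h1 : ContMDiffAt 𝓘(ℝ, G × (Fin m → ℝ)) (𝓘(ℝ, Fin m → ℝ).prod 𝓘(ℝ, E)) ∞
      (fun p : G × (Fin m → ℝ) => (p.2, φ.symm (sl x₀ j p.1))) p := by
    apply ContMDiffAt.prodMk
    · exact contDiffAt_snd.contMDiffAt
    · have h2 : ContMDiffAt 𝓘(ℝ, G × (Fin m → ℝ)) 𝓘(ℝ, E) ∞
          (fun p : G × (Fin m → ℝ) => sl x₀ j p.1) p :=
        ((contDiff_sl x₀ j).comp contDiff_fst).contMDiff.contMDiffAt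
      exact ContMDiffAt.comp p (g := φ.symm)
        (f := fun p : G × (Fin m → ℝ) => sl x₀ j p.1) hsymm h2
  exact ContMDiffAt.comp p (g := fun p : (Fin m → ℝ) × P => A.act p.1 p.2)
    A.smooth.contMDiffAt h1

/-- the parametrisation read in the chart at `y` -/
def pmc (y : P) (p : G × (Fin m → ℝ)) : E := extChartAt 𝓘(ℝ, E) y (pm A x₀ j p)

lemma contDiffAt_pmc {y : P} {p : G × (Fin m → ℝ)}
    (hp : sl x₀ j p.1 ∈ (extChartAt 𝓘(ℝ, E) x₀).target)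
    (hy : pm A x₀ j p ∈ (extChartAt 𝓘(ℝ, E) y).source) : ContDiffAt ℝ ∞ (pmc A x₀ j y) p := by
  have h1 : ContMDiffAt 𝓘(ℝ, E) 𝓘(ℝ, E) ∞ (extChartAt 𝓘(ℝ, E) y) (pm A x₀ j p) :=
    contMDiffAt_extChartAt' (by rwa [extChartAt_source] at hy)
  exact (ContMDiffAt.comp p (g := extChartAt 𝓘(ℝ, E) y) (f := pm A x₀ j) h1
    (contMDiffAt_pm A x₀ j hp)).contDiffAt

/-- the domain on which everything is defined -/
def dom : Set (G × (Fin m → ℝ)) :=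
  {p | sl x₀ j p.1 ∈ (extChartAt 𝓘(ℝ, E) x₀).target ∧ pm A x₀ j p ∈ (extChartAt 𝓘(ℝ, E) x₀).source}

lemma isOpen_dom : IsOpen (dom A x₀ j) := by
  rw [isOpen_iff_mem_nhds]
  rintro p ⟨h1, h2⟩
  have h3 : ∀ᶠ p' in 𝓝 p, sl x₀ j p'.1 ∈ (extChartAt 𝓘(ℝ, E) x₀).target :=
    (((contDiff_sl x₀ j).comp (contDiff_fst (F := Fin m → ℝ))).continuous.continuousAt
      (x := p)).eventually_mem ((isOpen_extChartAt_target x₀).mem_nhds h1)
  have h4 : ∀ᶠ p' in 𝓝 p, pm A x₀ j p' ∈ (extChartAt 𝓘(ℝ, E) x₀).source :=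
    (contMDiffAt_pm A x₀ j h1).continuousAt.eventually_mem
      ((isOpen_extChartAt_source x₀).mem_nhds h2)
  exact h3.and h4

lemma zero_mem_dom : ((0 : G), (0 : Fin m → ℝ)) ∈ dom A x₀ j := by
  refine ⟨?_, ?_⟩
  · show sl x₀ j 0 ∈ _
    rw [sl_zero]
    exact mem_extChartAt_target x₀
  · rw [pm_zero]
    exact mem_extChartAt_source x₀

lemma e_mem_dom {e : G} (he : sl x₀ j e ∈ (extChartAt 𝓘(ℝ, E) x₀).target) :
    (e, (0 : Fin m → ℝ)) ∈ dom A x₀ j := by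
  refine ⟨he, ?_⟩
  rw [pm_e]
  exact (extChartAt 𝓘(ℝ, E) x₀).map_target he

lemma pmc_e {e : G} (he : sl x₀ j e ∈ (extChartAt 𝓘(ℝ, E) x₀).target) :
    pmc A x₀ j x₀ (e, 0) = sl x₀ j e := by
  unfold pmc
  rw [pm_e]
  exact (extChartAt 𝓘(ℝ, E) x₀).right_inv he

lemma hasFDerivAt_pmc : HasFDerivAt (pmc A x₀ j x₀) (j.coprod (XL A x₀)) (0, 0) := by
  have hd := zero_mem_dom A x₀ j
  have h0 : ContDiffAt ℝ ∞ (pmc A x₀ j x₀) (0, 0) := contDiffAt_pmc A x₀ j hd.1 hd.2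
  have h1 := (h0.differentiableAt (by simp)).hasFDerivAt
  have h2 : HasFDerivAt (fun e : G => pmc A x₀ j x₀ (e, 0))
      ((fderiv ℝ (pmc A x₀ j x₀) (0, 0)).comp (ContinuousLinearMap.inl ℝ G (Fin m → ℝ))) 0 :=
    HasFDerivAt.comp (0 : G) (g := pmc A x₀ j x₀) (f := fun e : G => (e, (0 : Fin m → ℝ))) h1
      (hasFDerivAt_prodMk_left (𝕜 := ℝ) (0 : G) (0 : Fin m → ℝ))
  have h3 : HasFDerivAt (fun e : G => pmc A x₀ j x₀ (e, 0)) j 0 := by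
    refine (hasFDerivAt_sl x₀ j 0).congr_of_eventuallyEq ?_
    have h4 : ∀ᶠ e in 𝓝 (0 : G), sl x₀ j e ∈ (extChartAt 𝓘(ℝ, E) x₀).target :=
      ((contDiff_sl x₀ j).continuous.continuousAt (x := 0)).eventually_mem
        ((isOpen_extChartAt_target x₀).mem_nhds hd.1)
    filter_upwards [h4] with e he
    exact pmc_e A x₀ j he
  have h4 : HasFDerivAt (fun θ : Fin m → ℝ => pmc A x₀ j x₀ (0, θ))
      ((fderiv ℝ (pmc A x₀ j x₀) (0, 0)).comp (ContinuousLinearMap.inr ℝ G (Fin m → ℝ))) 0 :=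
    HasFDerivAt.comp (0 : Fin m → ℝ) (g := pmc A x₀ j x₀) (f := fun θ : Fin m → ℝ => ((0 : G), θ)) h1
      (hasFDerivAt_prodMk_right (𝕜 := ℝ) (0 : G) (0 : Fin m → ℝ))
  have h5 : HasFDerivAt (fun θ : Fin m → ℝ => pmc A x₀ j x₀ (0, θ)) (XL A x₀) 0 := by
    have h6 : (fun θ : Fin m → ℝ => pmc A x₀ j x₀ (0, θ)) =
        fun θ => extChartAt 𝓘(ℝ, E) x₀ (A.act θ x₀) := by
      ext1 θ
      simp only [pmc, pm, sl_zero]
      rw [extChartAt_to_inv x₀]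
    rw [h6]
    exact hasFDerivAt_orbit A x₀
  have h6 := h2.unique h3
  have h7 := h4.unique h5
  have h11 : fderiv ℝ (pmc A x₀ j x₀) (0, 0) = j.coprod (XL A x₀) := by
    refine ContinuousLinearMap.ext fun p => ?_
    obtain ⟨e, κ⟩ := p
    have h8 : fderiv ℝ (pmc A x₀ j x₀) (0, 0) (e, 0) = j e := DFunLike.congr_fun h6 e
    have h9 : fderiv ℝ (pmc A x₀ j x₀) (0, 0) (0, κ) = XL A x₀ κ := DFunLike.congr_fun h7 κ
    have h10 : ((e, κ) : G × (Fin m → ℝ)) = (e, 0) + (0, κ) := by simp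
    rw [h10, map_add, h8, h9]
    simp
  rw [← h11]
  exact h1

end param

/-- A slice at `x₀`. -/
structure Slice (x₀ : P) where
  d : ℕ
  j : EuclideanSpace ℝ (Fin d) →L[ℝ] E
  Φ : OpenPartialHomeomorph (EuclideanSpace ℝ (Fin d) × (Fin m → ℝ)) E
  coe : ∀ p, Φ p = pmc A x₀ j x₀ p
  mem : ((0 : EuclideanSpace ℝ (Fin d)), (0 : Fin m → ℝ)) ∈ Φ.source
  sub : Φ.source ⊆ dom A x₀ j
  inv : ∀ p ∈ Φ.source, ∃ D : (EuclideanSpace ℝ (Fin d) × (Fin m → ℝ)) ≃L[ℝ] E,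
    HasFDerivAt (pmc A x₀ j x₀) (D : (EuclideanSpace ℝ (Fin d) × (Fin m → ℝ)) →L[ℝ] E) p

theorem exists_slice (x₀ : P) (hfree : ∀ κ : Fin m → ℝ, (A.X κ x₀ : E) = 0 → κ = 0) :
    Nonempty (Slice A x₀) := by
  obtain ⟨E₂, hE₂⟩ := Submodule.exists_isCompl (LinearMap.range (XL A x₀).toLinearMap)
  let lin : EuclideanSpace ℝ (Fin (Module.finrank ℝ E₂)) ≃ₗ[ℝ] E₂ :=
    LinearEquiv.ofFinrankEq _ _ (by simp)
  let j : EuclideanSpace ℝ (Fin (Module.finrank ℝ E₂)) →L[ℝ] E :=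
    LinearMap.toContinuousLinearMap (E₂.subtype ∘ₗ lin.toLinearMap)
  have hj : ∀ e, j e = ((lin e : E₂) : E) := fun e => rfl
  set G := EuclideanSpace ℝ (Fin (Module.finrank ℝ E₂)) with hG
  have hXinj : Function.Injective (XL A x₀) := by
    rw [injective_iff_map_eq_zero]
    intro κ hκ
    exact hfree κ hκ
  have hinj : Function.Injective (j.coprod (XL A x₀)).toLinearMap := by
    rw [injective_iff_map_eq_zero]
    rintro ⟨e, κ⟩ h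
    have h1 : j e + XL A x₀ κ = 0 := h
    have h2 : j e = XL A x₀ (-κ) := by
      rw [map_neg]
      exact eq_neg_of_add_eq_zero_left h1
    have h3 : j e ∈ (LinearMap.range (XL A x₀).toLinearMap ⊓ E₂ : Submodule ℝ E) :=
      ⟨⟨-κ, h2.symm⟩, (lin e).2⟩
    rw [hE₂.inf_eq_bot, Submodule.mem_bot] at h3
    have h4 : e = 0 := by
      apply lin.injective
      apply Subtype.ext
      rw [map_zero]
      exact h3
    have h5 : κ = 0 := by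
      apply hXinj
      rw [map_zero]
      rw [h3, zero_add] at h1
      exact h1
    rw [h4, h5]
    rfl
  have hsurj : Function.Surjective (j.coprod (XL A x₀)).toLinearMap := by
    intro x
    have h1 : x ∈ (LinearMap.range (XL A x₀).toLinearMap ⊔ E₂ : Submodule ℝ E) := by
      rw [hE₂.sup_eq_top]
      exact Submodule.mem_top
    obtain ⟨a, ⟨κ, hκ⟩, b, hb, rfl⟩ := Submodule.mem_sup.1 h1
    refine ⟨(lin.symm ⟨b, hb⟩, κ), ?_⟩
    show j (lin.symm ⟨b, hb⟩) + XL A x₀ κ = a + b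
    rw [hj, lin.apply_symm_apply, add_comm]
    congr 1
  let D₀ : (G × (Fin m → ℝ)) ≃L[ℝ] E :=
    (LinearEquiv.ofBijective (j.coprod (XL A x₀)).toLinearMap ⟨hinj, hsurj⟩).toContinuousLinearEquiv
  have hD₀ : (D₀ : (G × (Fin m → ℝ)) →L[ℝ] E) = j.coprod (XL A x₀) :=
    ContinuousLinearMap.ext fun _ => rfl
  have hder : HasFDerivAt (pmc A x₀ j x₀) (D₀ : (G × (Fin m → ℝ)) →L[ℝ] E) (0, 0) := by
    rw [hD₀]
    exact hasFDerivAt_pmc A x₀ j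
  have hd := zero_mem_dom A x₀ j
  have hs : ContDiffAt ℝ ∞ (pmc A x₀ j x₀) (0, 0) := contDiffAt_pmc A x₀ j hd.1 hd.2
  let Φ₀ := hs.toOpenPartialHomeomorph (pmc A x₀ j x₀) hder (by simp)
  have hΦ₀ : (Φ₀ : G × (Fin m → ℝ) → E) = pmc A x₀ j x₀ := rfl
  have hmem₀ : ((0 : G), (0 : Fin m → ℝ)) ∈ Φ₀.source :=
    hs.mem_toOpenPartialHomeomorph_source hder (by simp)
  -- where the derivative is invertible
  have hc : ContinuousAt (fderiv ℝ (pmc A x₀ j x₀)) (0, 0) :=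
    (hs.fderiv_right (m := 0) (by simp)).continuousAt
  have hinvn : ∀ᶠ p in 𝓝 ((0 : G), (0 : Fin m → ℝ)),
      fderiv ℝ (pmc A x₀ j x₀) p ∈ range ((↑) : ((G × (Fin m → ℝ)) ≃L[ℝ] E) →
        ((G × (Fin m → ℝ)) →L[ℝ] E)) := by
    apply hc.eventually_mem
    rw [hder.fderiv]
    exact ContinuousLinearEquiv.nhds D₀
  obtain ⟨O, hO, hOo, hO0⟩ := _root_.mem_nhds_iff.1 (Filter.inter_mem hinvn
    ((isOpen_dom A x₀ j).mem_nhds hd))
  refine ⟨⟨Module.finrank ℝ E₂, j, Φ₀.restrOpen O hOo, fun p => rfl, ⟨hmem₀, hO0⟩,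
    fun p hp => (hO hp.2).2, ?_⟩⟩
  rintro p ⟨hp1, hp2⟩
  obtain ⟨D, hD⟩ := (hO hp2).1
  refine ⟨D, ?_⟩
  rw [hD]
  have h1 := (hO hp2).2
  exact ((contDiffAt_pmc A x₀ j h1.1 h1.2).differentiableAt (by simp)).hasFDerivAt

end Run7.h21.GO
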