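import Mathlib
import Pool.Agent.Run7.h21.GO.Slice

/-! Invariant functions with a nondegenerate minimum along an orbit. -/

open scoped Topology ContDiff Manifold
open Set Metric Bundle Pool.Agent.Helper186 Pool.Agent.H826R2.Wein Pool.Agent.TH607
  Pool.Agent.R775

noncomputable section

namespace Run7.h21.GO

set_option linter.unusedSectionVars false

universe u

variable {E : Type u} [NormedAddCommGroup E] [NormedSpace ℝ E] [FiniteDimensional ℝ E]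
  {P : Type*} [TopologicalSpace P] [ChartedSpace E P] [IsManifold 𝓘(ℝ, E) ∞ P]
  {β : (x : P) → TangentSpace 𝓘(ℝ, E) x →L[ℝ] ℝ} {m : ℕ} {A : TS β m}

namespace Slice

variable {x₀ : P} (S : Slice A x₀)

/-- the domain of the slice coordinates -/
def V : Set P :=
  {y | y ∈ (extChartAt 𝓘(ℝ, E) x₀).source ∧ extChartAt 𝓘(ℝ, E) x₀ y ∈ S.Φ.target}

lemma isOpen_V : IsOpen S.V := by
  have h := (continuousOn_extChartAt (I := 𝓘(ℝ, E)) x₀).isOpen_inter_preimage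
    (isOpen_extChartAt_source x₀) S.Φ.open_target
  exact h

lemma Φ_zero : S.Φ (0, 0) = extChartAt 𝓘(ℝ, E) x₀ x₀ := by
  rw [S.coe]
  show extChartAt 𝓘(ℝ, E) x₀ (pm A x₀ S.j (0, 0)) = _
  rw [pm_zero]

lemma mem_V : x₀ ∈ S.V := by
  refine ⟨mem_extChartAt_source x₀, ?_⟩
  rw [← S.Φ_zero]
  exact S.Φ.map_source S.mem

/-- the square of the distance to the orbit in the slice coordinates -/
def σ (y : P) : ℝ := ‖(S.Φ.symm (extChartAt 𝓘(ℝ, E) x₀ y)).1‖ ^ 2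

lemma σ_nonneg (y : P) : 0 ≤ S.σ y := by unfold σ; positivity

lemma contDiffAt_symm {z : E} (hz : z ∈ S.Φ.target) : ContDiffAt ℝ ∞ S.Φ.symm z := by
  have h1 := S.Φ.map_target hz
  obtain ⟨D, hD⟩ := S.inv _ h1
  have h2 : (S.Φ : EuclideanSpace ℝ (Fin S.d) × (Fin m → ℝ) → E) = pmc A x₀ S.j x₀ :=
    funext S.coe
  refine S.Φ.contDiffAt_symm hz (f₀' := D) (by rw [h2]; exact hD) ?_
  rw [h2]
  exact contDiffAt_pmc A x₀ S.j (S.sub h1).1 (S.sub h1).2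

lemma contMDiffAt_σ {y : P} (hy : y ∈ S.V) : ContMDiffAt 𝓘(ℝ, E) 𝓘(ℝ, ℝ) ∞ S.σ y := by
  have h1 : ContDiffAt ℝ ∞ (fun z : E => ‖(S.Φ.symm z).1‖ ^ 2) (extChartAt 𝓘(ℝ, E) x₀ y) :=
    ((S.contDiffAt_symm hy.2).fst).norm_sq ℝ
  have h2 : ContMDiffAt 𝓘(ℝ, E) 𝓘(ℝ, E) ∞ (extChartAt 𝓘(ℝ, E) x₀) y :=
    contMDiffAt_extChartAt' (by have := hy.1; rwa [extChartAt_source] at this)
  exact ContMDiffAt.comp y (g := fun z : E => ‖(S.Φ.symm z).1‖ ^ 2)
    (f := extChartAt 𝓘(ℝ, E) x₀) h1.contMDiffAt h2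

lemma symm_pm {p : EuclideanSpace ℝ (Fin S.d) × (Fin m → ℝ)} (hp : p ∈ S.Φ.source) :
    S.Φ.symm (extChartAt 𝓘(ℝ, E) x₀ (pm A x₀ S.j p)) = p := by
  have h1 : extChartAt 𝓘(ℝ, E) x₀ (pm A x₀ S.j p) = S.Φ p := (S.coe p).symm
  rw [h1]
  exact S.Φ.left_inv hp

lemma σ_pm {p : EuclideanSpace ℝ (Fin S.d) × (Fin m → ℝ)} (hp : p ∈ S.Φ.source) :
    S.σ (pm A x₀ S.j p) = ‖p.1‖ ^ 2 := by
  unfold σ
  rw [S.symm_pm hp]

lemma pm_symm {y : P} (hy : y ∈ S.V) :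
    pm A x₀ S.j (S.Φ.symm (extChartAt 𝓘(ℝ, E) x₀ y)) = y := by
  have h1 := S.Φ.map_target hy.2
  apply (extChartAt 𝓘(ℝ, E) x₀).injOn (S.sub h1).2 hy.1
  have h2 : extChartAt 𝓘(ℝ, E) x₀ (pm A x₀ S.j (S.Φ.symm (extChartAt 𝓘(ℝ, E) x₀ y))) =
      S.Φ (S.Φ.symm (extChartAt 𝓘(ℝ, E) x₀ y)) := (S.coe _).symm
  rw [h2]
  exact S.Φ.right_inv hy.2

lemma symm_x₀ : S.Φ.symm (extChartAt 𝓘(ℝ, E) x₀ x₀) = (0, 0) := by
  rw [← S.Φ_zero]
  exact S.Φ.left_inv S.mem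

lemma σ_act : ∀ᶠ p in 𝓝 ((0 : Fin m → ℝ), x₀), S.σ (A.act p.1 p.2) = S.σ p.2 := by
  have h1 : ∀ᶠ p in 𝓝 ((0 : Fin m → ℝ), x₀), p.2 ∈ S.V :=
    continuous_snd.continuousAt.eventually_mem (S.isOpen_V.mem_nhds S.mem_V)
  have hc1 : ContinuousAt (fun y : P => S.Φ.symm (extChartAt 𝓘(ℝ, E) x₀ y)) x₀ :=
    ContinuousAt.comp (g := S.Φ.symm) (f := extChartAt 𝓘(ℝ, E) x₀)
      (S.contDiffAt_symm S.mem_V.2).continuousAt (continuousAt_extChartAt x₀)
  have hc2 : ContinuousAt (fun p : (Fin m → ℝ) × P => S.Φ.symm (extChartAt 𝓘(ℝ, E) x₀ p.2))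
      ((0 : Fin m → ℝ), x₀) :=
    ContinuousAt.comp (g := fun y : P => S.Φ.symm (extChartAt 𝓘(ℝ, E) x₀ y))
      (f := fun p : (Fin m → ℝ) × P => p.2) hc1 continuous_snd.continuousAt
  have hc3 : ContinuousAt (fun p : (Fin m → ℝ) × P =>
      ((S.Φ.symm (extChartAt 𝓘(ℝ, E) x₀ p.2)).1,
        p.1 + (S.Φ.symm (extChartAt 𝓘(ℝ, E) x₀ p.2)).2)) ((0 : Fin m → ℝ), x₀) :=
    (continuous_fst.continuousAt.comp hc2).prodMk
      (continuous_fst.continuousAt.add (continuous_snd.continuousAt.comp hc2))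
  have h2 := hc3.eventually_mem (s := S.Φ.source) (by
    apply S.Φ.open_source.mem_nhds
    show ((S.Φ.symm (extChartAt 𝓘(ℝ, E) x₀ x₀)).1,
        (0 : Fin m → ℝ) + (S.Φ.symm (extChartAt 𝓘(ℝ, E) x₀ x₀)).2) ∈ _
    rw [S.symm_x₀, add_zero]
    exact S.mem)
  filter_upwards [h1, h2] with p hp1 hp2
  have h3 : A.act p.1 p.2 = pm A x₀ S.j ((S.Φ.symm (extChartAt 𝓘(ℝ, E) x₀ p.2)).1,
        p.1 + (S.Φ.symm (extChartAt 𝓘(ℝ, E) x₀ p.2)).2) := by
    rw [← act_pm, S.pm_symm hp1]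
  rw [h3, S.σ_pm hp2]
  rfl

lemma σ_sat [T2Space P] : ∀ᶠ y in 𝓝 x₀, y ∈ sat A {x₀} → S.σ y = 0 := by
  have h1 : ∀ᶠ y in 𝓝 x₀, ∀ θ ∈ Icc (0 : Fin m → ℝ) 1, A.act θ x₀ = y → S.σ y = 0 := by
    apply isCompact_Icc.eventually_forall_of_forall_eventually
    intro θ₀ _
    have hact : Continuous (fun θ => A.act θ x₀) := (A.smooth_left x₀).continuous
    by_cases h : A.act θ₀ x₀ = x₀
    · have h2 : ∀ᶠ p in 𝓝 (x₀, θ₀), ((0 : EuclideanSpace ℝ (Fin S.d)), p.2 - θ₀) ∈ S.Φ.source := by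
        have h3 : ContinuousAt (fun p : P × (Fin m → ℝ) =>
            ((0 : EuclideanSpace ℝ (Fin S.d)), p.2 - θ₀)) (x₀, θ₀) := by fun_prop
        apply h3.eventually_mem
        apply S.Φ.open_source.mem_nhds
        show ((0 : EuclideanSpace ℝ (Fin S.d)), θ₀ - θ₀) ∈ _
        rw [sub_self]
        exact S.mem
      filter_upwards [h2] with p hp1 hp2
      have h3 : p.1 = pm A x₀ S.j (0, p.2 - θ₀) := by
        rw [← hp2]
        have h4 : pm A x₀ S.j (0, p.2 - θ₀) = A.act (p.2 - θ₀) (pm A x₀ S.j (0, 0)) := by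
          rw [act_pm, add_zero]
        rw [h4, pm_zero]
        conv_lhs => rw [← sub_add_cancel p.2 θ₀, A.add, h]
      rw [h3, S.σ_pm hp1]
      simp
    · have h2 : IsOpen {p : P × (Fin m → ℝ) | A.act p.2 x₀ ≠ p.1} :=
        isOpen_ne_fun (hact.comp continuous_snd) continuous_fst
      filter_upwards [h2.mem_nhds (show (x₀, θ₀) ∈ {p : P × (Fin m → ℝ) | A.act p.2 x₀ ≠ p.1}
        from h)] with p hp1 hp2
      exact absurd hp2 hp1
  filter_upwards [h1] with y hy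
  rintro ⟨θ, z, hz, rfl⟩
  rw [mem_singleton_iff.1 hz] at hy ⊢
  refine hy (fun i => Int.fract (θ i)) ⟨fun i => Int.fract_nonneg _,
    fun i => (Int.fract_lt_one _).le⟩ (act_fract A θ x₀)

/-- nonnegative functions vanishing on the orbit, supported in `K` and growing at least like the
square of the distance to the orbit -/
structure Good (K : Set P) (f : P → ℝ) : Prop where
  smooth : ContMDiff 𝓘(ℝ, E) 𝓘(ℝ, ℝ) ∞ f
  nonneg : ∀ y, 0 ≤ f y
  zero : ∀ y ∈ sat A {x₀}, f y = 0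
  supp : ∀ y, y ∉ K → f y = 0
  growth : ∃ c > (0:ℝ), ∀ᶠ y in 𝓝 x₀, c * S.σ y ≤ f y

lemma Good.avg {C : Set P} {f : P → ℝ} (hf : S.Good (sat A C) f) (k : Fin m → ℤ) :
    S.Good (sat A C) (A.avg (TS.rv k) f) := by
  have hcf : ∀ y, Continuous (fun s : ℝ => f (A.fam (TS.rv k) (s, y))) := fun y =>
    hf.smooth.continuous.comp ((A.smooth_fam (TS.rv k)).continuous.comp
      (continuous_id.prodMk continuous_const))
  refine ⟨A.smooth_avg _ hf.smooth, ?_, ?_, ?_, ?_⟩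
  · intro y
    exact intervalIntegral.integral_nonneg zero_le_one fun s _ => hf.nonneg _
  · intro y hy
    have : ∀ s : ℝ, f (A.fam (TS.rv k) (s, y)) = 0 := fun s => hf.zero _ (sat_act A hy _)
    unfold TS.avg
    simp [this]
  · intro y hy
    have : ∀ s : ℝ, f (A.fam (TS.rv k) (s, y)) = 0 := fun s =>
      hf.supp _ fun h => hy (sat_of_act A h)
    unfold TS.avg
    simp [this]
  · obtain ⟨c, hc, hcy⟩ := hf.growth
    have hcont : ContinuousAt (fun p : ℝ × P => (p.1 • TS.rv k, p.2)) ((0:ℝ), x₀) := by fun_prop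
    have h1 : ∀ᶠ p in 𝓝 ((0:ℝ), x₀), S.σ (A.fam (TS.rv k) p) = S.σ p.2 := by
      have h2 : (fun p : ℝ × P => (p.1 • TS.rv k, p.2)) ((0:ℝ), x₀) = ((0 : Fin m → ℝ), x₀) := by
        simp
      have h3 := S.σ_act
      rw [← h2] at h3
      exact hcont.eventually h3
    have h2 : ∀ᶠ p in 𝓝 ((0:ℝ), x₀), c * S.σ (A.fam (TS.rv k) p) ≤ f (A.fam (TS.rv k) p) := by
      have h3 : ContinuousAt (A.fam (TS.rv k)) ((0:ℝ), x₀) :=
        (A.smooth_fam (TS.rv k)).continuous.continuousAt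
      have h4 : A.fam (TS.rv k) ((0:ℝ), x₀) = x₀ := A.fam_zero _ _
      have h5 : Filter.Tendsto (A.fam (TS.rv k)) (𝓝 ((0:ℝ), x₀)) (𝓝 x₀) := by
        have := h3.tendsto
        rwa [h4] at this
      exact h5.eventually hcy
    have h3 := h1.and h2
    rw [nhds_prod_eq, Filter.eventually_prod_iff] at h3
    obtain ⟨pa, hpa, pb, hpb, hab⟩ := h3
    obtain ⟨ρ, hρ, hball⟩ := Metric.eventually_nhds_iff_ball.1 hpa
    set ρ' : ℝ := min (ρ / 2) 1 with hρ'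
    have hρ'0 : 0 < ρ' := lt_min (by positivity) one_pos
    have hρ'1 : ρ' ≤ 1 := min_le_right _ _
    refine ⟨ρ' * c, by positivity, ?_⟩
    filter_upwards [hpb] with y hy
    have h4 : ∀ s ∈ Icc (0:ℝ) ρ', c * S.σ y ≤ f (A.fam (TS.rv k) (s, y)) := by
      intro s hs
      have h5 : pa s := by
        apply hball
        rw [mem_ball_zero_iff, Real.norm_eq_abs, abs_of_nonneg hs.1]
        have : ρ' ≤ ρ / 2 := min_le_left _ _
        linarith [hs.2]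
      obtain ⟨h6, h7⟩ := hab h5 hy
      rw [h6] at h7
      exact h7
    have hint : ∀ a b : ℝ, IntervalIntegrable (fun s : ℝ => f (A.fam (TS.rv k) (s, y)))
        MeasureTheory.volume a b := fun a b => (hcf y).intervalIntegrable a b
    have h5 : A.avg (TS.rv k) f y = (∫ s in (0:ℝ)..ρ', f (A.fam (TS.rv k) (s, y))) +
        ∫ s in ρ'..1, f (A.fam (TS.rv k) (s, y)) :=
      (intervalIntegral.integral_add_adjacent_intervals (hint _ _) (hint _ _)).symm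
    have h6 : 0 ≤ ∫ s in ρ'..1, f (A.fam (TS.rv k) (s, y)) :=
      intervalIntegral.integral_nonneg hρ'1 fun s _ => hf.nonneg _
    have h7 : (∫ s in (0:ℝ)..ρ', c * S.σ y) ≤ ∫ s in (0:ℝ)..ρ', f (A.fam (TS.rv k) (s, y)) :=
      intervalIntegral.integral_mono_on hρ'0.le (by simp) (hint _ _) h4
    have h8 : (∫ s in (0:ℝ)..ρ', c * S.σ y) = ρ' * c * S.σ y := by
      rw [intervalIntegral.integral_const]
      simp
      ring
    rw [h5, ← h8]
    linarith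

lemma exists_avg {C : Set P} {f : P → ℝ} (hf : S.Good (sat A C) f) (L : List (Fin m → ℤ)) :
    ∃ g, S.Good (sat A C) g ∧
      ∀ k ∈ L, ∀ (s : ℝ) (x : P), g (A.fam (TS.rv k) (s, x)) = g x := by
  induction L with
  | nil => exact ⟨f, hf, by simp⟩
  | cons k L ih =>
    obtain ⟨g, hg, hgL⟩ := ih
    refine ⟨A.avg (TS.rv k) g, Good.avg S hg k, ?_⟩
    intro k' hk' s x
    rcases List.mem_cons.1 hk' with rfl | hk'
    · exact A.avg_fam k' g s x
    · exact A.avg_act (TS.rv k) (s • TS.rv k') (fun z => hgL k' hk' s z) x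

lemma exists_inv {C : Set P} {f : P → ℝ} (hf : S.Good (sat A C) f) :
    ∃ g, S.Good (sat A C) g ∧ ∀ (θ : Fin m → ℝ) (x : P), g (A.act θ x) = g x := by
  obtain ⟨g, hg, hgL⟩ := S.exists_avg hf
    (Finset.univ.toList.map fun i : Fin m => (Pi.single i 1 : Fin m → ℤ))
  refine ⟨g, hg, fun θ x => A.inv_of_span hgL ?_ x⟩
  have h1 : θ = ∑ i, θ i • TS.rv (Pi.single i 1 : Fin m → ℤ) := by
    ext l
    rw [Finset.sum_apply]
    simp only [TS.rv, Pi.smul_apply, smul_eq_mul, Pi.single_apply]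
    rw [Finset.sum_eq_single l]
    · simp
    · intro b _ hb
      simp [hb.symm]
    · simp
  rw [h1]
  refine Submodule.sum_mem _ fun i _ => Submodule.smul_mem _ _ (Submodule.subset_span ?_)
  exact ⟨Pi.single i 1, List.mem_map.2 ⟨i, by simp, rfl⟩, rfl⟩

end Slice

end Run7.h21.GO
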