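import Mathlib
import Pool.Agent.Run7.h21.GO.Sigma

/-! Invariant functions on the base with a nondegenerate minimum along an orbit. -/

open scoped Topology ContDiff Manifold
open Set Metric Bundle Pool.Agent.Helper186 Pool.Agent.H826R2.Wein Pool.Agent.TH607
  Pool.Agent.R775

noncomputable section

namespace Run7.h21.GO

set_option linter.unusedSectionVars false

universe u

variable {E : Type u} [NormedAddCommGroup E] [NormedSpace ℝ E] [FiniteDimensional ℝ E]
  {M : Type*} [TopologicalSpace M] [ChartedSpace E M] [IsManifold 𝓘(ℝ, E) ∞ M]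
  {P : Type*} [TopologicalSpace P] [ChartedSpace E P] [IsManifold 𝓘(ℝ, E) ∞ P]
  {β : (x : P) → TangentSpace 𝓘(ℝ, E) x →L[ℝ] ℝ} {m : ℕ} {A : TS β m}
  {q : P → M} {Γ : Type*} [Group Γ] [MulAction Γ P]

/-- the fibre sum of an invariant function is invariant -/
lemma push_act [T2Space P] (hq : RegCover (E := E) q Γ) (hN : A.Norm Γ) {ψ : P → ℝ}
    (hψ : ∀ (θ : Fin m → ℝ) (x : P), ψ (A.act θ x) = ψ x) (θ : Fin m → ℝ) (p : P) :
    push q ψ (q (A.act θ p)) = push q ψ (q p) := by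
  classical
  have hch : ∀ z : P, ∃ γ : Γ, (∃ γ' : Γ, γ' • p = z) → γ • p = z := fun z => by
    by_cases h : ∃ γ' : Γ, γ' • p = z
    · obtain ⟨γ, hγ⟩ := h
      exact ⟨γ, fun _ => hγ⟩
    · exact ⟨1, fun h' => absurd h' h⟩
  choose γ hγ using hch
  have hfib : ∀ z ∈ q ⁻¹' {q p}, γ z • p = z := fun z hz =>
    hγ z ((hq.fibre p z).1 (show q p = q z from (show q z = q p from hz).symm))
  symm
  unfold push
  refine finsum_mem_eq_of_bijOn (fun z => γ z • A.act θ p) ⟨?_, ?_, ?_⟩ ?_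
  · intro z _
    show q (γ z • A.act θ p) = q (A.act θ p)
    exact hq.proj_smul _ _
  · intro z hz z' hz' h
    have h1 : ((γ z')⁻¹ * γ z) • A.act θ p = A.act θ p := by
      rw [mul_smul]
      have h2 : γ z • A.act θ p = γ z' • A.act θ p := h
      rw [h2, inv_smul_smul]
    have h2 := fix_orbit A hq h1 (-θ)
    rw [act_neg_act, mul_smul, inv_smul_eq_iff] at h2
    rw [hfib z hz, hfib z' hz'] at h2
    exact h2
  · intro w hw
    obtain ⟨g, hg⟩ := (hq.fibre (A.act θ p) w).1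
      (show q (A.act θ p) = q w from (show q w = q (A.act θ p) from hw).symm)
    have hz : g • p ∈ q ⁻¹' {q p} := hq.proj_smul _ _
    refine ⟨g • p, hz, ?_⟩
    have h1 : (g⁻¹ * γ (g • p)) • p = p := by
      rw [mul_smul, hfib _ hz, inv_smul_smul]
    have h2 := fix_orbit A hq h1 θ
    rw [mul_smul, inv_smul_eq_iff] at h2
    show γ (g • p) • A.act θ p = w
    rw [h2, hg]
  · intro z hz
    obtain ⟨B, hB⟩ := hN.norm (γ z)
    show ψ z = ψ (γ z • A.act θ p)
    rw [hB, hψ, hfib z hz]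

lemma push_nonneg {ψ : P → ℝ} (h : ∀ z, 0 ≤ ψ z) (y : M) : 0 ≤ push q ψ y := by
  unfold push
  refine finsum_nonneg fun z => finsum_nonneg fun _ => h z

lemma le_push (hq : RegCover (E := E) q Γ) {t : Set P} (ht : IsCompact t) {ψ : P → ℝ}
    (hψ : ∀ z, z ∉ t → ψ z = 0) (h : ∀ z, 0 ≤ ψ z) (p : P) : ψ p ≤ push q ψ (q p) := by
  unfold push
  have hfin : (Function.support fun z => ∑ᶠ (_ : z ∈ q ⁻¹' {q p}), ψ z).Finite := by
    refine (hq.finite_fibre p ht).subset fun z hz => ?_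
    have h1 : z ∈ q ⁻¹' {q p} := by
      by_contra hno
      apply hz
      show ∑ᶠ (_ : z ∈ q ⁻¹' {q p}), ψ z = 0
      simp [hno]
    refine ⟨?_, (hq.fibre p z).1 (show q p = q z from (show q z = q p from h1).symm)⟩
    by_contra hno
    apply hz
    show ∑ᶠ (_ : z ∈ q ⁻¹' {q p}), ψ z = 0
    rw [hψ z hno]
    simp
  have h1 := single_le_finsum (f := fun z => ∑ᶠ (_ : z ∈ q ⁻¹' {q p}), ψ z) p hfin
    fun z => finsum_nonneg fun _ => h z
  have h2 : (∑ᶠ (_ : p ∈ q ⁻¹' {q p}), ψ p) = ψ p := by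
    simp
  simpa [h2] using h1

theorem exists_fun [T2Space M] [T2Space P] [SigmaCompactSpace P] (hq : RegCover (E := E) q Γ)
    (hN : A.Norm Γ) {x₀ : P} (S : Slice A x₀) :
    ∃ g : M → ℝ, ContMDiff 𝓘(ℝ, E) 𝓘(ℝ, ℝ) ∞ g ∧ (∀ y, 0 ≤ g y) ∧ g (q x₀) = 0 ∧
      (∀ (θ : Fin m → ℝ) (p : P), g (q (A.act θ p)) = g (q p)) ∧
      ∃ c > (0:ℝ), ∀ᶠ y in 𝓝 x₀, c * S.σ y ≤ g (q y) := by
  have : LocallyCompactSpace P := ChartedSpace.locallyCompactSpace E P
  obtain ⟨t, ht, hOt, htq⟩ := exists_nbhd A hq hN.norm x₀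
  -- a small neighbourhood
  have h1 : ∀ᶠ y in 𝓝 x₀, ∀ θ ∈ Icc (0 : Fin m → ℝ) 1, A.act θ y ∈ interior t := by
    apply isCompact_Icc.eventually_forall_of_forall_eventually
    intro θ₀ _
    have h2 : ContinuousAt (fun p : P × (Fin m → ℝ) => A.act p.2 p.1) (x₀, θ₀) :=
      (A.smooth.continuous.comp (continuous_snd.prodMk continuous_fst)).continuousAt
    exact h2.eventually_mem (isOpen_interior.mem_nhds (hOt ⟨θ₀, x₀, rfl, rfl⟩))
  have h2 := (h1.and S.σ_sat).and (S.isOpen_V.mem_nhds S.mem_V)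
  obtain ⟨C, hCn, hCs, hC⟩ := local_compact_nhds h2
  have hKt : sat A C ⊆ t := by
    rintro _ ⟨θ, z, hz, rfl⟩
    rw [← act_fract A θ z]
    exact interior_subset ((hCs hz).1.1 _ ⟨fun i => Int.fract_nonneg _,
      fun i => (Int.fract_lt_one _).le⟩)
  -- the cut off function
  obtain ⟨χ, hχ1, hχ0, hχr⟩ := exists_contMDiffMap_one_nhds_of_subset_interior 𝓘(ℝ, E)
    (n := (⊤ : ℕ∞)) (s := {x₀}) (t := C) isClosed_singleton
    (singleton_subset_iff.2 (mem_interior_iff_mem_nhds.2 hCn))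
  have hχ1' : ∀ᶠ y in 𝓝 x₀, χ y = 1 := by
    rw [nhdsSet_singleton] at hχ1
    exact hχ1
  have hgood : S.Good (sat A C) (fun y => χ y * S.σ y) := by
    refine ⟨?_, ?_, ?_, ?_, ?_⟩
    · apply contMDiff_of_tsupport
      intro y hy
      have hyC : y ∈ C := by
        have h3 : tsupport (fun y => χ y * S.σ y) ⊆ C := by
          apply closure_minimal _ hC.isClosed
          intro z hz
          by_contra hno
          apply hz
          show χ z * S.σ z = 0
          rw [hχ0 z hno, zero_mul]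
        exact h3 hy
      exact (χ.contMDiff.contMDiffAt).mul (S.contMDiffAt_σ (hCs hyC).2)
    · intro y
      exact mul_nonneg (hχr y).1 (S.σ_nonneg y)
    · intro y hy
      by_cases hyC : y ∈ C
      · rw [(hCs hyC).1.2 hy, mul_zero]
      · rw [hχ0 y hyC, zero_mul]
    · intro y hy
      have hyC : y ∉ C := fun h => hy (self_mem_sat A h)
      rw [hχ0 y hyC, zero_mul]
    · refine ⟨1, one_pos, ?_⟩
      filter_upwards [hχ1'] with y hy
      rw [hy]
  obtain ⟨Ψ, hΨ, hΨA⟩ := S.exists_inv hgood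
  have hΨt : ∀ z, z ∉ t → Ψ z = 0 := fun z hz => hΨ.supp z fun h => hz (hKt h)
  refine ⟨push q Ψ, contMDiff_push hq ht hΨt hΨ.smooth, push_nonneg hΨ.nonneg, ?_,
    fun θ p => push_act hq hN hΨA θ p, ?_⟩
  · unfold push
    refine finsum_mem_eq_zero_of_forall_eq_zero fun z hz => ?_
    by_cases hzt : z ∈ t
    · obtain ⟨γ, hγ⟩ := (hq.fibre x₀ z).1 (show q x₀ = q z from (show q z = q x₀ from hz).symm)
      apply hΨ.zero
      apply htq z hzt
      refine ⟨γ, ?_⟩
      rw [← hγ, inv_smul_smul]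
      exact self_mem_sat A rfl
    · exact hΨt z hzt
  · obtain ⟨c, hc, hcy⟩ := hΨ.growth
    refine ⟨c, hc, ?_⟩
    filter_upwards [hcy] with y hy
    exact hy.trans (le_push hq ht hΨt hΨ.nonneg y)

end Run7.h21.GO
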