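import Mathlib
import Pool.Agent.Run7.h21.GO.Func

/-! From nondegeneracy on a slice to nondegeneracy transversally to the orbit. -/

open scoped Topology ContDiff Manifold
open Set Metric Bundle Pool.Agent.Helper186 Pool.Agent.H826R2.Wein Pool.Agent.TH607
  Pool.Agent.R775

noncomputable section

namespace Run7.h21.GO

set_option linter.unusedSectionVars false

section calc1

variable {V W K G : Type*} [NormedAddCommGroup V] [NormedSpace ℝ V] [NormedAddCommGroup W]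
  [NormedSpace ℝ W] [NormedAddCommGroup K] [NormedSpace ℝ K] [NormedAddCommGroup G]
  [NormedSpace ℝ G]

lemma snd_comp_affine {f : W → ℝ} {c : W} (L : V →L[ℝ] W) {z : V}
    (hf : ContDiffAt ℝ 2 f (c + L z)) (a b : V) :
    fderiv ℝ (fderiv ℝ (fun y => f (c + L y))) z a b =
      fderiv ℝ (fderiv ℝ f) (c + L z) (L a) (L b) := by
  have hψ : ∀ y, HasFDerivAt (fun y : V => c + L y) L y := fun y => L.hasFDerivAt.const_add c
  have h1 : ∀ᶠ y in 𝓝 z, fderiv ℝ (fun y => f (c + L y)) y = (fderiv ℝ f (c + L y)).comp L := by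
    have h2 : Filter.Tendsto (fun y : V => c + L y) (𝓝 z) (𝓝 (c + L z)) :=
      (hψ z).continuousAt
    filter_upwards [h2.eventually (eventually_diff hf)] with y hy
    exact (HasFDerivAt.comp y hy.hasFDerivAt (hψ y)).fderiv
  have h2 : HasFDerivAt (fun y => fderiv ℝ f (c + L y))
      ((fderiv ℝ (fderiv ℝ f) (c + L z)).comp L) z :=
    HasFDerivAt.comp z (g := fderiv ℝ f) (f := fun y : V => c + L y)
      (diff_fderiv hf).hasFDerivAt (hψ z)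
  have h3 := h2.clm_comp (hasFDerivAt_const L z)
  have h4 : HasFDerivAt (fderiv ℝ (fun y => f (c + L y))) _ z := h3.congr_of_eventuallyEq h1
  rw [h4.fderiv]
  simp

lemma kernel_of_param {f : W → ℝ} {Sg : G × K → W} {k : G → ℝ} {v₀ : G × K}
    (hf : ContDiffAt ℝ 2 f (Sg v₀)) (hS : ContDiffAt ℝ 2 Sg v₀)
    (hsurj : Function.Surjective (fderiv ℝ Sg v₀)) (hk : ContDiffAt ℝ 2 k v₀.1)
    (heq : ∀ᶠ v in 𝓝 v₀, f (Sg v) = k v.1) (dk : fderiv ℝ k v₀.1 = 0)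
    (ndk : ∀ u, (∀ v, fderiv ℝ (fderiv ℝ k) v₀.1 u v = 0) → u = 0) :
    fderiv ℝ f (Sg v₀) = 0 ∧ ∀ u, (∀ v, fderiv ℝ (fderiv ℝ f) (Sg v₀) u v = 0) →
      ∃ κ : K, u = fderiv ℝ Sg v₀ (0, κ) := by
  have heq' : (f ∘ Sg) =ᶠ[𝓝 v₀] (k ∘ fun v : G × K => v.1) := heq
  have h1 : fderiv ℝ (f ∘ Sg) v₀ = (fderiv ℝ f (Sg v₀)).comp (fderiv ℝ Sg v₀) :=
    fderiv_comp v₀ (hf.differentiableAt (by simp)) (hS.differentiableAt (by simp))
  have h2 : fderiv ℝ (k ∘ fun v : G × K => v.1) v₀ = 0 := by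
    have h3 := fderiv_comp v₀ (g := k) (f := fun v : G × K => v.1)
      (hk.differentiableAt (by simp)) differentiableAt_fst
    rw [dk, ContinuousLinearMap.zero_comp] at h3
    exact h3
  have h3 : fderiv ℝ f (Sg v₀) = 0 := by
    refine ContinuousLinearMap.ext fun u => ?_
    obtain ⟨a, rfl⟩ := hsurj u
    have h4 := heq'.fderiv_eq (𝕜 := ℝ)
    rw [h1, h2] at h4
    exact DFunLike.congr_fun h4 a
  refine ⟨h3, fun u hu => ?_⟩
  obtain ⟨a, rfl⟩ := hsurj u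
  have h4 : a.1 = 0 := by
    apply ndk
    intro b
    have h5 := snd_comp hf hS h3 a (b, 0)
    have h6 : fderiv ℝ (fderiv ℝ (f ∘ Sg)) v₀ =
        fderiv ℝ (fderiv ℝ (k ∘ fun v : G × K => v.1)) v₀ :=
      (heq'.fderiv (𝕜 := ℝ)).fderiv_eq
    have h7 := snd_comp (f := k) (ψ := fun v : G × K => v.1) (z := v₀) hk contDiffAt_fst dk a (b, 0)
    rw [h6, h7, hu] at h5
    have h8 : fderiv ℝ (fun v : G × K => v.1) v₀ = ContinuousLinearMap.fst ℝ G K := fderiv_fst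
    rw [h8] at h5
    exact h5
  refine ⟨a.2, ?_⟩
  congr 1
  exact Prod.ext h4 rfl

/-- the second derivative at a minimum at which the function grows quadratically -/
lemma snd_ge_of_growth {g : W → ℝ} {z₀ : W} (j : G →L[ℝ] W) (hg : ContDiffAt ℝ 2 g z₀)
    (h0 : g z₀ = 0) {c : ℝ} (hn : ∀ᶠ e in 𝓝 (0 : G), c * ‖e‖ ^ 2 ≤ g (z₀ + j e)) (u : G) :
    2 * c * ‖u‖ ^ 2 ≤ fderiv ℝ (fderiv ℝ g) z₀ (j u) (j u) := by
  set L : ℝ →L[ℝ] W := ContinuousLinearMap.toSpanSingleton ℝ (j u) with hL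
  have hLt : ∀ t : ℝ, L t = t • j u := fun t => rfl
  set f : ℝ → ℝ := fun t => g (z₀ + t • j u) - c * ‖u‖ ^ 2 * t ^ 2 with hf
  have hz : z₀ + (0:ℝ) • j u = z₀ := by simp
  have hline : ∀ t : ℝ, HasDerivAt (fun t : ℝ => z₀ + t • j u) (j u) t := fun t => by
    have h1 : HasDerivAt (fun t : ℝ => t • j u) ((1:ℝ) • j u) t := (hasDerivAt_id t).smul_const (j u)
    rw [one_smul] at h1
    exact h1.const_add z₀
  have hlines : ContDiff ℝ 2 (fun t : ℝ => z₀ + t • j u) :=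
    contDiff_const.add (contDiff_id.smul contDiff_const)
  have hg' : ContDiffAt ℝ 2 g (z₀ + (0:ℝ) • j u) := by rw [hz]; exact hg
  have hfs : ContDiffAt ℝ 2 f 0 :=
    (hg'.comp (0:ℝ) hlines.contDiffAt).sub (contDiffAt_const.mul (contDiffAt_id.pow 2))
  have hmin : ∀ᶠ t in 𝓝 (0:ℝ), f 0 ≤ f t := by
    have h1 : Filter.Tendsto (fun t : ℝ => t • u) (𝓝 0) (𝓝 (0 : G)) := by
      have : ContinuousAt (fun t : ℝ => t • u) 0 := by fun_prop
      have h2 := this.tendsto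
      rwa [zero_smul] at h2
    filter_upwards [h1.eventually hn] with t ht
    have h2 : f 0 = 0 := by
      simp only [hf]
      rw [hz, h0]
      ring
    rw [h2]
    simp only [hf]
    rw [map_smul, norm_smul, mul_pow, Real.norm_eq_abs, sq_abs] at ht
    linarith
  have hnn := snd_nonneg hfs hmin
  have h1 : deriv f =ᶠ[𝓝 0] fun t => fderiv ℝ g (z₀ + t • j u) (j u) - c * ‖u‖ ^ 2 * (2 * t) := by
    have h2 : Filter.Tendsto (fun t : ℝ => z₀ + t • j u) (𝓝 0) (𝓝 z₀) := by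
      have := (hline 0).continuousAt.tendsto
      rwa [hz] at this
    filter_upwards [h2.eventually (eventually_diff hg)] with t ht
    have h3 : HasDerivAt (fun t : ℝ => g (z₀ + t • j u)) (fderiv ℝ g (z₀ + t • j u) (j u)) t :=
      ht.hasFDerivAt.comp_hasDerivAt t (hline t)
    have h4 : HasDerivAt (fun t : ℝ => c * ‖u‖ ^ 2 * t ^ 2) (c * ‖u‖ ^ 2 * (2 * t)) t := by
      have := (hasDerivAt_pow 2 t).const_mul (c * ‖u‖ ^ 2)
      simpa using this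
    exact (h3.sub h4).deriv
  have h2 : HasDerivAt (fun t : ℝ => fderiv ℝ g (z₀ + t • j u) (j u) - c * ‖u‖ ^ 2 * (2 * t))
      (fderiv ℝ (fderiv ℝ g) z₀ (j u) (j u) - c * ‖u‖ ^ 2 * 2) 0 := by
    have h3 : HasFDerivAt (fderiv ℝ g) (fderiv ℝ (fderiv ℝ g) z₀) (z₀ + (0:ℝ) • j u) := by
      rw [hz]
      exact (diff_fderiv hg).hasFDerivAt
    have h4 : HasDerivAt (fun t : ℝ => fderiv ℝ g (z₀ + t • j u))
        (fderiv ℝ (fderiv ℝ g) z₀ (j u)) 0 := h3.comp_hasDerivAt (0:ℝ) (hline 0)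
    have h5 : HasDerivAt (fun t : ℝ => fderiv ℝ g (z₀ + t • j u) (j u))
        (fderiv ℝ (fderiv ℝ g) z₀ (j u) (j u)) 0 := by
      have := h4.clm_apply (hasDerivAt_const (0:ℝ) (j u))
      simpa using this
    have h6 : HasDerivAt (fun t : ℝ => c * ‖u‖ ^ 2 * (2 * t)) (c * ‖u‖ ^ 2 * 2) 0 := by
      have := ((hasDerivAt_id (0:ℝ)).const_mul 2).const_mul (c * ‖u‖ ^ 2)
      simpa using this
    exact h5.sub h6
  rw [h1.deriv_eq, h2.deriv] at hnn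
  linarith

end calc1

universe u

variable {E : Type u} [NormedAddCommGroup E] [NormedSpace ℝ E] [FiniteDimensional ℝ E]
  {P : Type*} [TopologicalSpace P] [ChartedSpace E P] [IsManifold 𝓘(ℝ, E) ∞ P]
  {β : (x : P) → TangentSpace 𝓘(ℝ, E) x →L[ℝ] ℝ} {m : ℕ} {A : TS β m}

/-- coordinate changes have surjective derivatives -/
lemma surjective_transition {x₀ y : P} (hy : y ∈ (extChartAt 𝓘(ℝ, E) x₀).source) :
    ContDiffAt ℝ ∞ (extChartAt 𝓘(ℝ, E) y ∘ (extChartAt 𝓘(ℝ, E) x₀).symm)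
      (extChartAt 𝓘(ℝ, E) x₀ y) ∧
    Function.Surjective (fderiv ℝ (extChartAt 𝓘(ℝ, E) y ∘ (extChartAt 𝓘(ℝ, E) x₀).symm)
      (extChartAt 𝓘(ℝ, E) x₀ y)) := by
  set φ := extChartAt 𝓘(ℝ, E) x₀ with hφ
  set φy := extChartAt 𝓘(ℝ, E) y with hφy
  have hback : φ.symm (φ y) = y := φ.left_inv hy
  have hbacky : φy.symm (φy y) = y := extChartAt_to_inv y
  have h1 : ContMDiffAt 𝓘(ℝ, E) 𝓘(ℝ, E) ∞ φ.symm (φ y) :=
    (contMDiffOn_extChartAt_symm x₀).contMDiffAt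
      ((isOpen_extChartAt_target x₀).mem_nhds (φ.map_source hy))
  have h2 : ContMDiffAt 𝓘(ℝ, E) 𝓘(ℝ, E) ∞ φy (φ.symm (φ y)) := by
    rw [hback]; exact contMDiffAt_extChartAt
  have hω : ContDiffAt ℝ ∞ (φy ∘ φ.symm) (φ y) := (h2.comp (φ y) h1).contDiffAt
  have h3 : ContMDiffAt 𝓘(ℝ, E) 𝓘(ℝ, E) ∞ φy.symm (φy y) :=
    (contMDiffOn_extChartAt_symm y).contMDiffAt (extChartAt_target_mem_nhds y)
  have h4 : ContMDiffAt 𝓘(ℝ, E) 𝓘(ℝ, E) ∞ φ (φy.symm (φy y)) := by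
    rw [hbacky]; exact contMDiffAt_extChartAt' (by rwa [extChartAt_source] at hy)
  have hω' : ContDiffAt ℝ ∞ (φ ∘ φy.symm) (φy y) := (h4.comp (φy y) h3).contDiffAt
  refine ⟨hω, fun u => ?_⟩
  have h5 : (φ ∘ φy.symm) (φy y) = φ y := by
    show φ (φy.symm (φy y)) = _
    rw [hbacky]
  have h6 : HasFDerivAt (φy ∘ φ.symm) (fderiv ℝ (φy ∘ φ.symm) (φ y)) ((φ ∘ φy.symm) (φy y)) := by
    rw [h5]
    exact (hω.differentiableAt (by simp)).hasFDerivAt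
  have h7 := h6.comp (φy y) (hω'.differentiableAt (by simp)).hasFDerivAt
  have h8 : ((φy ∘ φ.symm) ∘ (φ ∘ φy.symm)) =ᶠ[𝓝 (φy y)] id := by
    have h9 : ∀ᶠ z in 𝓝 (φy y), φy.symm z ∈ φ.source :=
      h3.continuousAt.eventually_mem (by
        rw [hbacky]
        exact (isOpen_extChartAt_source x₀).mem_nhds hy)
    filter_upwards [h9, extChartAt_target_mem_nhds (I := 𝓘(ℝ, E)) y] with z hz1 hz2
    show φy (φ.symm (φ (φy.symm z))) = z
    rw [φ.left_inv hz1]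
    exact φy.right_inv hz2
  have h9 := (h7.congr_of_eventuallyEq h8.symm).unique (hasFDerivAt_id (φy y))
  exact ⟨fderiv ℝ (φ ∘ φy.symm) (φy y) u, DFunLike.congr_fun h9 u⟩

theorem nondeg_at {x₀ : P} (S : Slice A x₀) {f : P → ℝ}
    (hf : ContMDiff 𝓘(ℝ, E) 𝓘(ℝ, ℝ) ∞ f)
    (hinv : ∀ (θ : Fin m → ℝ) (x : P), f (A.act θ x) = f x) {e : EuclideanSpace ℝ (Fin S.d)}
    (he : (e, (0 : Fin m → ℝ)) ∈ S.Φ.source)
    (h1 : ∀ v, fderiv ℝ (f ∘ (extChartAt 𝓘(ℝ, E) x₀).symm) (sl x₀ S.j e) (S.j v) = 0)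
    (h2 : ∀ u, (∀ v, fderiv ℝ (fderiv ℝ (f ∘ (extChartAt 𝓘(ℝ, E) x₀).symm)) (sl x₀ S.j e)
      (S.j u) (S.j v) = 0) → u = 0) {y : P} (hy : y = pm A x₀ S.j (e, 0)) :
    dForm 𝓘(ℝ, E) f y = 0 ∧ ∀ u : E, (∀ v : E, fderiv ℝ (fderiv ℝ
      (f ∘ (extChartAt 𝓘(ℝ, E) y).symm)) (extChartAt 𝓘(ℝ, E) y y) u v = 0) →
      ∃ κ, u = A.X κ y := by
  set φ := extChartAt 𝓘(ℝ, E) x₀ with hφ
  set φy := extChartAt 𝓘(ℝ, E) y with hφy
  obtain ⟨hd1, hd2⟩ := S.sub he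
  have hye : y = φ.symm (sl x₀ S.j e) := by rw [hy, pm_e]
  have hysrc : y ∈ φ.source := by rw [hy]; exact hd2
  have hφyy : φ y = sl x₀ S.j e := by rw [hye]; exact φ.right_inv hd1
  have hpy : pm A x₀ S.j (e, 0) ∈ φy.source := by rw [← hy]; exact mem_extChartAt_source y
  have hf0 : ContDiffAt ℝ ∞ (f ∘ φ.symm) (sl x₀ S.j e) :=
    (hf.contMDiffAt.comp _ ((contMDiffOn_extChartAt_symm x₀).contMDiffAt
      ((isOpen_extChartAt_target x₀).mem_nhds hd1))).contDiffAt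
  have hfy : ContDiffAt ℝ ∞ (f ∘ φy.symm) (φy y) :=
    (hf.contMDiffAt.comp _ ((contMDiffOn_extChartAt_symm y).contMDiffAt
      (extChartAt_target_mem_nhds y))).contDiffAt
  set Sg := pmc A x₀ S.j y with hSg
  have hSge : Sg (e, 0) = φy y := by
    show φy (pm A x₀ S.j (e, 0)) = _
    rw [← hy]
  have hSgs : ContDiffAt ℝ ∞ Sg (e, 0) := contDiffAt_pmc A x₀ S.j hd1 hpy
  set k : EuclideanSpace ℝ (Fin S.d) → ℝ := fun e' => (f ∘ φ.symm) (φ x₀ + S.j e') with hk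
  have hle2 : (2 : WithTop ℕ∞) ≤ ∞ := WithTop.coe_le_coe.2 (le_top : (2 : ℕ∞) ≤ ⊤)
  have hf0' : ContDiffAt ℝ 2 (f ∘ φ.symm) (φ x₀ + S.j e) := hf0.of_le hle2
  have hks : ContDiffAt ℝ 2 k e := by
    have h3 : ContDiffAt ℝ 2 (sl x₀ S.j) e := (contDiff_sl x₀ S.j).contDiffAt.of_le hle2
    exact ContDiffAt.comp e (g := f ∘ φ.symm) (f := sl x₀ S.j) hf0' h3
  have hdk : fderiv ℝ k e = 0 := by
    have h3 : HasFDerivAt k ((fderiv ℝ (f ∘ φ.symm) (sl x₀ S.j e)).comp S.j) e :=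
      HasFDerivAt.comp e (g := f ∘ φ.symm) (f := sl x₀ S.j)
        (hf0.differentiableAt (by simp)).hasFDerivAt (hasFDerivAt_sl x₀ S.j e)
    rw [h3.fderiv]
    exact ContinuousLinearMap.ext fun v => h1 v
  have hndk : ∀ u, (∀ v, fderiv ℝ (fderiv ℝ k) e u v = 0) → u = 0 := by
    intro u hu
    refine h2 u fun v => ?_
    rw [← hu v]
    exact (snd_comp_affine S.j hf0' u v).symm
  have heq : ∀ᶠ v in 𝓝 (e, (0 : Fin m → ℝ)), (f ∘ φy.symm) (Sg v) = k v.1 := by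
    have h3 : ∀ᶠ v in 𝓝 (e, (0 : Fin m → ℝ)), pm A x₀ S.j v ∈ φy.source :=
      (contMDiffAt_pm A x₀ S.j hd1).continuousAt.eventually_mem
        ((isOpen_extChartAt_source y).mem_nhds hpy)
    filter_upwards [h3] with v hv
    show f (φy.symm (φy (pm A x₀ S.j v))) = f (φ.symm (sl x₀ S.j v.1))
    rw [φy.left_inv hv]
    exact hinv _ _
  obtain ⟨D, hD⟩ := S.inv _ he
  obtain ⟨hω, hωs⟩ := surjective_transition hysrc
  have hsurj : Function.Surjective (fderiv ℝ Sg (e, 0)) := by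
    have h3 : Sg =ᶠ[𝓝 (e, (0 : Fin m → ℝ))] (φy ∘ φ.symm) ∘ pmc A x₀ S.j x₀ := by
      filter_upwards [(isOpen_dom A x₀ S.j).mem_nhds (S.sub he)] with v hv
      show φy (pm A x₀ S.j v) = φy (φ.symm (φ (pm A x₀ S.j v)))
      rw [φ.left_inv hv.2]
    have h4 : pmc A x₀ S.j x₀ (e, 0) = φ y := by
      rw [hy]
      rfl
    have h5 : HasFDerivAt (φy ∘ φ.symm) (fderiv ℝ (φy ∘ φ.symm) (φ y))
        (pmc A x₀ S.j x₀ (e, 0)) := by
      rw [h4]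
      exact (hω.differentiableAt (by simp)).hasFDerivAt
    have h6 := (h5.comp (e, (0 : Fin m → ℝ)) hD).congr_of_eventuallyEq h3
    rw [h6.fderiv]
    intro u
    obtain ⟨a, ha⟩ := hωs u
    refine ⟨D.symm a, ?_⟩
    show fderiv ℝ (φy ∘ φ.symm) (φ y) (D (D.symm a)) = u
    rw [D.apply_symm_apply, ha]
  have hX : ∀ κ, fderiv ℝ Sg (e, 0) (0, κ) = A.X κ y := by
    intro κ
    have h3 : HasFDerivAt (fun θ : Fin m → ℝ => Sg (e, θ))
        ((fderiv ℝ Sg (e, 0)).comp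
          (ContinuousLinearMap.inr ℝ (EuclideanSpace ℝ (Fin S.d)) (Fin m → ℝ))) 0 :=
      HasFDerivAt.comp (0 : Fin m → ℝ) (g := Sg) (f := fun θ : Fin m → ℝ => (e, θ))
        (hSgs.differentiableAt (by simp)).hasFDerivAt
        (hasFDerivAt_prodMk_right (𝕜 := ℝ) e (0 : Fin m → ℝ))
    have h4 : (fun θ : Fin m → ℝ => Sg (e, θ)) = fun θ => φy (A.act θ y) := by
      ext1 θ
      show φy (pm A x₀ S.j (e, θ)) = _
      have h5 : pm A x₀ S.j (e, θ) = A.act θ (pm A x₀ S.j (e, 0)) := by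
        rw [act_pm, add_zero]
      rw [h5, ← hy]
    rw [h4] at h3
    have h5 := h3.unique (hasFDerivAt_orbit A y)
    exact DFunLike.congr_fun h5 κ
  have hfy' : ContDiffAt ℝ 2 (f ∘ φy.symm) (Sg (e, 0)) := by
    rw [hSge]; exact hfy.of_le hle2
  obtain ⟨h3, h4⟩ := kernel_of_param (v₀ := (e, (0 : Fin m → ℝ))) hfy' (hSgs.of_le hle2) hsurj
    hks heq hdk hndk
  rw [hSge] at h3 h4
  refine ⟨?_, fun u hu => ?_⟩
  · have h5 : (dForm 𝓘(ℝ, E) f y : E →L[ℝ] ℝ) = fderiv ℝ (f ∘ φy.symm) (φy y) :=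
      dForm_eq_fderiv hf y
    rw [h3] at h5
    exact h5
  · obtain ⟨κ, hκ⟩ := h4 u hu
    exact ⟨κ, hκ.trans (hX κ)⟩

end Run7.h21.GO
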