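import Mathlib
import Pool.Agent.H826R2.Wein.Stmt

/-! Definitions for the statement about infinitely many closed Reeb orbits of generic
torus-symmetric contact forms. -/

open scoped Topology ContDiff Manifold
open Set Metric Pool.Agent.H826R2.WStmt

noncomputable section

namespace Run7.h21.GO

section

variable {E : Type*} [NormedAddCommGroup E] [NormedSpace ℝ E]
  {M : Type*} [TopologicalSpace M] [ChartedSpace E M]
  {P : Type*} [TopologicalSpace P] [ChartedSpace E P]

/-- `h` is a smooth positive function on `M` whose lift `h ∘ q` to `P` is invariant under the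
action `act`. -/
structure IsFactor (E : Type*) [NormedAddCommGroup E] [NormedSpace ℝ E]
    {M : Type*} [TopologicalSpace M] [ChartedSpace E M] {P : Type*} (q : P → M) {m : ℕ}
    (act : (Fin m → ℝ) → P → P) (h : M → ℝ) : Prop where
  smooth : ContMDiff 𝓘(ℝ, E) 𝓘(ℝ, ℝ) ∞ h
  pos : ∀ y, 0 < h y
  inv : ∀ (θ : Fin m → ℝ) (p : P), h (q (act θ p)) = h (q p)

/-- The functions `f` and `f'` are `δ`-close in `C²` on the ball of radius `r` about `x`, in the
preferred chart at `x`: the values, the first and the second derivatives differ by at most `δ`. -/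
def C2Close (E : Type*) [NormedAddCommGroup E] [NormedSpace ℝ E]
    {P : Type*} [TopologicalSpace P] [ChartedSpace E P] (x : P) (r δ : ℝ) (f f' : P → ℝ) : Prop :=
  ∀ z ∈ ball (extChartAt 𝓘(ℝ, E) x x) r,
    |f ((extChartAt 𝓘(ℝ, E) x).symm z) - f' ((extChartAt 𝓘(ℝ, E) x).symm z)| ≤ δ ∧
    ‖fderiv ℝ (f ∘ (extChartAt 𝓘(ℝ, E) x).symm) z -
      fderiv ℝ (f' ∘ (extChartAt 𝓘(ℝ, E) x).symm) z‖ ≤ δ ∧
    ‖fderiv ℝ (fderiv ℝ (f ∘ (extChartAt 𝓘(ℝ, E) x).symm)) z -
      fderiv ℝ (fderiv ℝ (f' ∘ (extChartAt 𝓘(ℝ, E) x).symm)) z‖ ≤ δ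

/-- Infinitely many closed orbits of the vector field `R` (counted as subsets of `M`) pass through
every neighbourhood of the point `y`. -/
def ClosedOrbitsAccumulateAt (R : M → E) (y : M) : Prop :=
  ∀ U ∈ 𝓝 y, {C : Set M | (∃ (c : ℝ → M) (T : ℝ), IsPeriodicOrbit R c T ∧ C = range c) ∧
    (C ∩ U).Nonempty}.Infinite

end

end Run7.h21.GO
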