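import Mathlib
import Pool.Agent.Run7.h21.GO.Nondeg
import Pool.Agent.Run7.h21.GO.Stmt

/-! Generic torus-symmetric contact forms have infinitely many closed Reeb orbits. -/

open scoped Topology ContDiff Manifold
open Set Metric Bundle Pool.Agent.Helper186 Pool.Agent.H826R2.Wein Pool.Agent.TH607
  Pool.Agent.R775

noncomputable section

namespace Run7.h21.GO

set_option linter.unusedSectionVars false

section calc2

variable {V : Type*} [NormedAddCommGroup V] [NormedSpace ℝ V]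

lemma one_add_mul {g : V → ℝ} {z : V} (hg : ContDiffAt ℝ 2 g z) (ε : ℝ) :
    fderiv ℝ (fun y => 1 + ε * g y) z = ε • fderiv ℝ g z ∧
    fderiv ℝ (fderiv ℝ (fun y => 1 + ε * g y)) z = ε • fderiv ℝ (fderiv ℝ g) z := by
  have h0 : ∀ y, DifferentiableAt ℝ g y → HasFDerivAt (fun y => 1 + ε * g y) (ε • fderiv ℝ g y) y :=
    fun y hy => (hy.hasFDerivAt.const_mul ε).const_add 1
  refine ⟨(h0 z (hg.differentiableAt (by simp))).fderiv, ?_⟩
  have h1 : fderiv ℝ (fun y => 1 + ε * g y) =ᶠ[𝓝 z] fun y => ε • fderiv ℝ g y := by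
    filter_upwards [eventually_diff hg] with y hy
    exact (h0 y hy).fderiv
  have h2 : HasFDerivAt (fun y => ε • fderiv ℝ g y) (ε • fderiv ℝ (fderiv ℝ g) z) z :=
    (diff_fderiv hg).hasFDerivAt.const_smul ε
  exact (h2.congr_of_eventuallyEq h1).fderiv

lemma close_mul {a a' b : V → ℝ} {z : V} (ha : ContDiffAt ℝ 2 a z) (ha' : ContDiffAt ℝ 2 a' z)
    (hb : ContDiffAt ℝ 2 b z) {δ K : ℝ} (hK : |b z| ≤ K) (hK1 : ‖fderiv ℝ b z‖ ≤ K)
    (hK2 : ‖fderiv ℝ (fderiv ℝ b) z‖ ≤ K) (h0 : |a z - a' z| ≤ δ)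
    (h1 : ‖fderiv ℝ a z - fderiv ℝ a' z‖ ≤ δ)
    (h2 : ‖fderiv ℝ (fderiv ℝ a) z - fderiv ℝ (fderiv ℝ a') z‖ ≤ δ) :
    ‖fderiv ℝ (fun y => a y * b y) z - fderiv ℝ (fun y => a' y * b y) z‖ ≤ 4 * K * δ ∧
    ‖fderiv ℝ (fderiv ℝ (fun y => a y * b y)) z -
      fderiv ℝ (fderiv ℝ (fun y => a' y * b y)) z‖ ≤ 4 * K * δ := by
  have hδ : 0 ≤ δ := (abs_nonneg _).trans h0
  have hK0 : 0 ≤ K := (abs_nonneg _).trans hK
  have e1 : ∀ u, |fderiv ℝ a z u - fderiv ℝ a' z u| ≤ δ * ‖u‖ := fun u => by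
    have := (fderiv ℝ a z - fderiv ℝ a' z).le_of_opNorm_le h1 u
    simpa using this
  have e2 : ∀ u, |fderiv ℝ b z u| ≤ K * ‖u‖ := fun u => by
    have := (fderiv ℝ b z).le_of_opNorm_le hK1 u
    simpa using this
  have e3 : ∀ u v, |fderiv ℝ (fderiv ℝ a) z u v - fderiv ℝ (fderiv ℝ a') z u v| ≤
      δ * ‖u‖ * ‖v‖ := fun u v => by
    have := (fderiv ℝ (fderiv ℝ a) z - fderiv ℝ (fderiv ℝ a') z).le_of_opNorm₂_le_of_le h2
      (le_refl ‖u‖) (le_refl ‖v‖)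
    simpa using this
  have e4 : ∀ u v, |fderiv ℝ (fderiv ℝ b) z u v| ≤ K * ‖u‖ * ‖v‖ := fun u v => by
    have := (fderiv ℝ (fderiv ℝ b) z).le_of_opNorm₂_le_of_le hK2 (le_refl ‖u‖) (le_refl ‖v‖)
    simpa using this
  constructor
  · refine ContinuousLinearMap.opNorm_le_bound _ (by positivity) fun u => ?_
    have h3 : (fderiv ℝ (fun y => a y * b y) z - fderiv ℝ (fun y => a' y * b y) z) u =
        (a z - a' z) * fderiv ℝ b z u + b z * (fderiv ℝ a z u - fderiv ℝ a' z u) := by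
      show fderiv ℝ (fun y => a y * b y) z u - fderiv ℝ (fun y => a' y * b y) z u = _
      rw [fst_mul (ha.differentiableAt (by simp)) (hb.differentiableAt (by simp)),
        fst_mul (ha'.differentiableAt (by simp)) (hb.differentiableAt (by simp))]
      ring
    rw [h3, Real.norm_eq_abs]
    have h4 : |(a z - a' z) * fderiv ℝ b z u| ≤ δ * (K * ‖u‖) := by
      rw [abs_mul]
      exact mul_le_mul h0 (e2 u) (abs_nonneg _) hδ
    have h5 : |b z * (fderiv ℝ a z u - fderiv ℝ a' z u)| ≤ K * (δ * ‖u‖) := by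
      rw [abs_mul]
      exact mul_le_mul hK (e1 u) (abs_nonneg _) hK0
    have h6 := abs_add_le ((a z - a' z) * fderiv ℝ b z u)
      (b z * (fderiv ℝ a z u - fderiv ℝ a' z u))
    have h7 : 0 ≤ K * δ * ‖u‖ := by positivity
    nlinarith
  · refine ContinuousLinearMap.opNorm_le_bound₂ _ (by positivity) fun u v => ?_
    have h3 : (fderiv ℝ (fderiv ℝ (fun y => a y * b y)) z -
        fderiv ℝ (fderiv ℝ (fun y => a' y * b y)) z) u v =
        (a z - a' z) * fderiv ℝ (fderiv ℝ b) z u v +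
        (fderiv ℝ a z u - fderiv ℝ a' z u) * fderiv ℝ b z v +
        b z * (fderiv ℝ (fderiv ℝ a) z u v - fderiv ℝ (fderiv ℝ a') z u v) +
        fderiv ℝ b z u * (fderiv ℝ a z v - fderiv ℝ a' z v) := by
      show fderiv ℝ (fderiv ℝ (fun y => a y * b y)) z u v -
        fderiv ℝ (fderiv ℝ (fun y => a' y * b y)) z u v = _
      rw [snd_mul ha hb, snd_mul ha' hb]
      ring
    rw [h3, Real.norm_eq_abs]
    have h4 : |(a z - a' z) * fderiv ℝ (fderiv ℝ b) z u v| ≤ δ * (K * ‖u‖ * ‖v‖) := by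
      rw [abs_mul]
      exact mul_le_mul h0 (e4 u v) (abs_nonneg _) hδ
    have h5 : |(fderiv ℝ a z u - fderiv ℝ a' z u) * fderiv ℝ b z v| ≤
        (δ * ‖u‖) * (K * ‖v‖) := by
      rw [abs_mul]
      exact mul_le_mul (e1 u) (e2 v) (abs_nonneg _) (by positivity)
    have h6 : |b z * (fderiv ℝ (fderiv ℝ a) z u v - fderiv ℝ (fderiv ℝ a') z u v)| ≤
        K * (δ * ‖u‖ * ‖v‖) := by
      rw [abs_mul]
      exact mul_le_mul hK (e3 u v) (abs_nonneg _) hK0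
    have h7 : |fderiv ℝ b z u * (fderiv ℝ a z v - fderiv ℝ a' z v)| ≤
        (K * ‖u‖) * (δ * ‖v‖) := by
      rw [abs_mul]
      exact mul_le_mul (e2 u) (e1 v) (abs_nonneg _) (by positivity)
    have h8 := abs_add_le ((a z - a' z) * fderiv ℝ (fderiv ℝ b) z u v +
        (fderiv ℝ a z u - fderiv ℝ a' z u) * fderiv ℝ b z v +
        b z * (fderiv ℝ (fderiv ℝ a) z u v - fderiv ℝ (fderiv ℝ a') z u v))
        (fderiv ℝ b z u * (fderiv ℝ a z v - fderiv ℝ a' z v))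
    have h9 := abs_add_le ((a z - a' z) * fderiv ℝ (fderiv ℝ b) z u v +
        (fderiv ℝ a z u - fderiv ℝ a' z u) * fderiv ℝ b z v)
        (b z * (fderiv ℝ (fderiv ℝ a) z u v - fderiv ℝ (fderiv ℝ a') z u v))
    have h10 := abs_add_le ((a z - a' z) * fderiv ℝ (fderiv ℝ b) z u v)
        ((fderiv ℝ a z u - fderiv ℝ a' z u) * fderiv ℝ b z v)
    have e5 : 4 * K * δ * ‖u‖ * ‖v‖ = δ * (K * ‖u‖ * ‖v‖) + (δ * ‖u‖) * (K * ‖v‖) +
      K * (δ * ‖u‖ * ‖v‖) + (K * ‖u‖) * (δ * ‖v‖) := by ring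
    rw [e5]
    linarith

lemma eventually_bounded {F : V → ℝ} {z₀ : V} (hF : ContDiffAt ℝ ∞ F z₀) :
    ∃ K > (0:ℝ), ∀ᶠ z in 𝓝 z₀, ContDiffAt ℝ 2 F z ∧ |F z| ≤ K ∧ ‖fderiv ℝ F z‖ ≤ K ∧
      ‖fderiv ℝ (fderiv ℝ F) z‖ ≤ K := by
  have h2 : ContDiffAt ℝ 2 F z₀ := hF.of_le (WithTop.coe_le_coe.2 (le_top : (2 : ℕ∞) ≤ ⊤))
  have h1 : ContDiffAt ℝ 1 (fderiv ℝ F) z₀ := hF.fderiv_right (by norm_cast)
  have h0 : ContDiffAt ℝ 0 (fderiv ℝ (fderiv ℝ F)) z₀ := h1.fderiv_right (by norm_num)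
  refine ⟨|F z₀| + ‖fderiv ℝ F z₀‖ + ‖fderiv ℝ (fderiv ℝ F) z₀‖ + 1, by positivity, ?_⟩
  filter_upwards [h2.eventually (by simp),
    near_of_contDiffAt (h2.of_le (by simp) : ContDiffAt ℝ 0 F z₀) one_pos,
    near_of_contDiffAt (h1.of_le (by simp) : ContDiffAt ℝ 0 (fderiv ℝ F) z₀) one_pos,
    near_of_contDiffAt h0 one_pos] with z a1 a2 a3 a4
  have n1 := norm_nonneg (fderiv ℝ F z₀)
  have n2 := norm_nonneg (fderiv ℝ (fderiv ℝ F) z₀)
  have n3 := abs_nonneg (F z₀)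
  refine ⟨a1, ?_, ?_, ?_⟩
  · rw [Real.norm_eq_abs] at a2
    have := abs_sub_abs_le_abs_sub (F z) (F z₀)
    linarith
  · have := norm_sub_norm_le (fderiv ℝ F z) (fderiv ℝ F z₀)
    linarith
  · have := norm_sub_norm_le (fderiv ℝ (fderiv ℝ F) z) (fderiv ℝ (fderiv ℝ F) z₀)
    linarith

end calc2

universe u

variable {E : Type u} [NormedAddCommGroup E] [NormedSpace ℝ E] [FiniteDimensional ℝ E]
  {M : Type*} [TopologicalSpace M] [ChartedSpace E M] [IsManifold 𝓘(ℝ, E) ∞ M]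
  {P : Type*} [TopologicalSpace P] [ChartedSpace E P] [IsManifold 𝓘(ℝ, E) ∞ P]
  {m : ℕ} {q : P → M} {Γ : Type*} [Group Γ] [MulAction Γ P]
  {α : (x : M) → TangentSpace 𝓘(ℝ, E) x →L[ℝ] ℝ}

/-- the same action preserves an invariant multiple of the form -/
def rescale (A : TAct (pullForm 𝓘(ℝ, E) 𝓘(ℝ, E) q α) m) (h : M → ℝ)
    (hinv : ∀ (θ : Fin m → ℝ) (p : P), h (q (A.act θ p)) = h (q p)) :
    TAct (pullForm 𝓘(ℝ, E) 𝓘(ℝ, E) q (fun x => h x • α x)) m where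
  act := A.act
  smooth := A.smooth
  zero := A.zero
  add := A.add
  period := A.period
  strict := fun θ x u => by
    show h (q (A.act θ x)) * (pullForm 𝓘(ℝ, E) 𝓘(ℝ, E) q α (A.act θ x)
      (mfderiv 𝓘(ℝ, E) 𝓘(ℝ, E) (A.act θ) x u)) = h (q x) * pullForm 𝓘(ℝ, E) 𝓘(ℝ, E) q α x u
    rw [hinv, A.strict]
  free := A.free

/-- forgetting local freeness -/
def tts {β : (x : P) → TangentSpace 𝓘(ℝ, E) x →L[ℝ] ℝ} (A : TAct β m) : TS β m where
  act := A.act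
  smooth := A.smooth
  zero := A.zero
  add := A.add
  period := A.period
  strict := A.strict

end Run7.h21.GO
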