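import Mathlib
import Pool.Agent.Run7.h21.GO.Main

/-! Generic torus-symmetric contact forms have infinitely many closed Reeb orbits: the theorem in
working form. -/

open scoped Topology ContDiff Manifold
open Set Metric Bundle Pool.Agent.Helper186 Pool.Agent.H826R2.Wein Pool.Agent.TH607
  Pool.Agent.R775

noncomputable section

namespace Run7.h21.GO

set_option linter.unusedSectionVars false

universe u

variable {E : Type u} [NormedAddCommGroup E] [NormedSpace ℝ E] [FiniteDimensional ℝ E]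
  {M : Type*} [TopologicalSpace M] [ChartedSpace E M] [IsManifold 𝓘(ℝ, E) ∞ M]
  {P : Type*} [TopologicalSpace P] [ChartedSpace E P] [IsManifold 𝓘(ℝ, E) ∞ P]
  {m : ℕ} {q : P → M} {Γ : Type*} [Group Γ] [MulAction Γ P]
  {α : (x : M) → TangentSpace 𝓘(ℝ, E) x →L[ℝ] ℝ}

/-- infinitely many closed orbits from a slice-nondegenerate critical point -/
lemma infinite_of_slice (hα : IsContact α) {R₀ : (x : M) → TangentSpace 𝓘(ℝ, E) x}
    (hq : RegCover (E := E) q Γ) (hm : 2 ≤ m)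
    (A : TAct (pullForm 𝓘(ℝ, E) 𝓘(ℝ, E) q α) m)
    (hnorm : ∀ γ : Γ, ∃ B : Matrix (Fin m) (Fin m) ℤ, ∀ (θ : Fin m → ℝ) (x : P),
      γ • A.act θ x = A.act ((B.map (Int.cast : ℤ → ℝ)).mulVec θ) (γ • x))
    {x₀ : P} (S : Slice (tts A) x₀) {w : Fin m → ℝ} {h : M → ℝ}
    (hs : ContMDiff 𝓘(ℝ, E) 𝓘(ℝ, ℝ) ∞ h) (hpos : ∀ y, 0 < h y)
    (hinv : ∀ (θ : Fin m → ℝ) (p : P), h (q (A.act θ p)) = h (q p))
    (hR₀ : IsReeb (fun x => h x • α x) R₀)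
    {e : EuclideanSpace ℝ (Fin S.d)} (he : (e, (0 : Fin m → ℝ)) ∈ S.Φ.source)
    (hFe : 0 < ((tts A).H w ∘ (extChartAt 𝓘(ℝ, E) x₀).symm) (sl x₀ S.j e))
    (h1 : ∀ v, fderiv ℝ (fun z => h (q ((extChartAt 𝓘(ℝ, E) x₀).symm z)) *
      ((tts A).H w ∘ (extChartAt 𝓘(ℝ, E) x₀).symm) z) (sl x₀ S.j e) (S.j v) = 0)
    (h2 : ∀ u, (∀ v, fderiv ℝ (fderiv ℝ (fun z => h (q ((extChartAt 𝓘(ℝ, E) x₀).symm z)) *
      ((tts A).H w ∘ (extChartAt 𝓘(ℝ, E) x₀).symm) z)) (sl x₀ S.j e) (S.j u) (S.j v) = 0) →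
      u = 0) {U : Set M} (hU : U ∈ 𝓝 (q ((extChartAt 𝓘(ℝ, E) x₀).symm (sl x₀ S.j e)))) :
    {C : Set M | (∃ (c : ℝ → M) (T : ℝ), (0 < T ∧ IsMIntegralCurve (I := 𝓘(ℝ, E)) c R₀ ∧
      ∀ t, c (t + T) = c t) ∧ C = range c) ∧ (C ∩ U).Nonempty}.Infinite := by
  set B := tts (rescale A h hinv) with hB
  have hc : IsContact (fun x => h x • α x) := isContact_smul hs hpos hα
  have hcP := hq.isContact_pull hc
  set f : P → ℝ := B.H w with hf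
  have hfs : ContMDiff 𝓘(ℝ, E) 𝓘(ℝ, ℝ) ∞ f := B.smooth_H hcP.smooth w
  have hfe : f ∘ (extChartAt 𝓘(ℝ, E) x₀).symm = fun z =>
      h (q ((extChartAt 𝓘(ℝ, E) x₀).symm z)) *
        ((tts A).H w ∘ (extChartAt 𝓘(ℝ, E) x₀).symm) z := rfl
  have hfinv : ∀ (θ : Fin m → ℝ) (x : P), f ((tts A).act θ x) = f x := fun θ x => B.H_act w θ x
  rw [← hfe] at h1 h2
  obtain ⟨h3, h4⟩ := nondeg_at S hfs hfinv he h1 h2 (y := pm (tts A) x₀ S.j (e, 0)) rfl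
  set y := pm (tts A) x₀ S.j (e, 0) with hy
  have hy' : y = (extChartAt 𝓘(ℝ, E) x₀).symm (sl x₀ S.j e) := pm_e _ _ _ _
  have hfy : 0 < f y := by
    have h5 : f y = h (q y) * (tts A).H w y := rfl
    rw [h5]
    refine mul_pos (hpos _) ?_
    rw [hy']
    exact hFe
  set w' : Fin m → ℝ := (f y)⁻¹ • w with hw'
  have hd' : dForm 𝓘(ℝ, E) (B.H w') y = 0 := by
    rw [hw', dHS_smul B hcP.smooth]
    have h5 : dForm 𝓘(ℝ, E) (B.H w) y = 0 := h3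
    rw [h5]
    exact smul_zero _
  have hH' : B.H w' y = 1 := by
    rw [hw', B.H_smul]
    exact inv_mul_cancel₀ hfy.ne'
  have hN : B.Norm Γ := ⟨hq.strict _, hnorm⟩
  have hnd : ∀ u : E, (∀ v : E, fderiv ℝ (fderiv ℝ (B.H w' ∘ (extChartAt 𝓘(ℝ, E) y).symm))
      (extChartAt 𝓘(ℝ, E) y y) u v = 0) → ∃ κ, u = B.X κ y := by
    intro u hu
    refine h4 u fun v => ?_
    have h5 : (B.H w' ∘ (extChartAt 𝓘(ℝ, E) y).symm) =
        fun z => (f y)⁻¹ * (f ∘ (extChartAt 𝓘(ℝ, E) y).symm) z := by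
      ext1 z
      exact B.H_smul _ _ _
    have h6 : ContDiffAt ℝ 2 (f ∘ (extChartAt 𝓘(ℝ, E) y).symm) (extChartAt 𝓘(ℝ, E) y y) :=
      ((hfs.contMDiffAt.comp _ ((contMDiffOn_extChartAt_symm y).contMDiffAt
        (extChartAt_target_mem_nhds y))).contDiffAt).of_le
        (WithTop.coe_le_coe.2 (le_top : (2 : ℕ∞) ≤ ⊤))
    have h7 := hu v
    rw [h5, snd_mul contDiffAt_const h6] at h7
    simp only [fderiv_fun_const, fderiv_zero, Pi.zero_apply, _root_.zero_apply, zero_mul, mul_zero,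
      add_zero] at h7
    exact (mul_eq_zero.1 h7).resolve_left (inv_ne_zero hfy.ne')
  have hfr : IsFreq R₀ q B y w' := isFreq_of_crit hc hR₀ hq B hd' hH'
  have h8 := infinite_orbits hc hR₀ hq B hN hm (x₀ := y) (w := w')
    (fun κ h => A.free y κ h) hfr hnd (U := U) (by rw [hy']; exact hU)
  refine h8.mono ?_
  rintro C ⟨c, T, h9, h10, h11⟩
  exact ⟨⟨c, T, h9, h10⟩, h11⟩

/-- **Main theorem, working form.** -/
theorem core [T2Space M] [CompactSpace M] [T2Space P] [SigmaCompactSpace P] [Nonempty P]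
    (hα : IsContact α) {R₀ : (x : M) → TangentSpace 𝓘(ℝ, E) x} (hR₀ : IsReeb α R₀)
    (hq : RegCover (E := E) q Γ) (hm : 2 ≤ m)
    (A : TAct (pullForm 𝓘(ℝ, E) 𝓘(ℝ, E) q α) m)
    (hnorm : ∀ γ : Γ, ∃ B : Matrix (Fin m) (Fin m) ℤ, ∀ (θ : Fin m → ℝ) (x : P),
      γ • A.act θ x = A.act ((B.map (Int.cast : ℤ → ℝ)).mulVec θ) (γ • x))
    {h₀ : M → ℝ} (hs₀ : ContMDiff 𝓘(ℝ, E) 𝓘(ℝ, ℝ) ∞ h₀) (hpos₀ : ∀ y, 0 < h₀ y)
    (hinv₀ : ∀ (θ : Fin m → ℝ) (p : P), h₀ (q (A.act θ p)) = h₀ (q p)) :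
    ∃ g : M → ℝ, ContMDiff 𝓘(ℝ, E) 𝓘(ℝ, ℝ) ∞ g ∧ (∀ y, 0 ≤ g y) ∧
      (∀ (θ : Fin m → ℝ) (p : P), g (q (A.act θ p)) = g (q p)) ∧
      ∃ ε₀ > (0:ℝ), ∀ ε : ℝ, ε ≠ 0 → |ε| < ε₀ → (∀ y, 0 < 1 + ε * g y) ∧
        ∃ (x₀ : P) (r δ : ℝ), 0 < r ∧ 0 < δ ∧
          ball (extChartAt 𝓘(ℝ, E) x₀ x₀) r ⊆ (extChartAt 𝓘(ℝ, E) x₀).target ∧
          ∀ h : M → ℝ, ContMDiff 𝓘(ℝ, E) 𝓘(ℝ, ℝ) ∞ h → (∀ y, 0 < h y) →
            (∀ (θ : Fin m → ℝ) (p : P), h (q (A.act θ p)) = h (q p)) →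
            C2Close E x₀ r δ (fun p => h (q p)) (fun p => h₀ (q p) * (1 + ε * g (q p))) →
            ∃ z ∈ ball (extChartAt 𝓘(ℝ, E) x₀ x₀) r,
              ∀ R : (x : M) → TangentSpace 𝓘(ℝ, E) x, IsReeb (fun x => h x • α x) R →
              ∀ U ∈ 𝓝 (q ((extChartAt 𝓘(ℝ, E) x₀).symm z)),
              {C : Set M | (∃ (c : ℝ → M) (T : ℝ), (0 < T ∧ IsMIntegralCurve (I := 𝓘(ℝ, E)) c R ∧
                ∀ t, c (t + T) = c t) ∧ C = range c) ∧ (C ∩ U).Nonempty}.Infinite := by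
  obtain ⟨n, ι, ⟨𝒟⟩⟩ := hq.exists_deck
  set A₀ := rescale A h₀ hinv₀ with hA₀
  have hc₀ : IsContact (fun x => h₀ x • α x) := isContact_smul hs₀ hpos₀ hα
  obtain ⟨R₁, hR₁⟩ := exists_reeb_smul hs₀ hpos₀ hα hR₀
  have hcP := hq.isContact_pull hc₀
  have hRP := hq.isReeb_lift hc₀ hR₁
  have hN₀ : A₀.Norm Γ := ⟨hq.strict _, hnorm⟩
  obtain ⟨κ, x₀, hκ, hx⟩ := exists_real_crit A₀ hcP.smooth 𝒟 hN₀ (by omega)
  have ha := A₀.H_ne_zero_of_crit hcP hRP hκ hx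
  set w : Fin m → ℝ := (A₀.H κ x₀)⁻¹ • κ with hw
  have hw1 : A₀.H w x₀ = 1 := by
    rw [hw, A₀.H_smul]
    exact inv_mul_cancel₀ ha
  have hw2 : dForm 𝓘(ℝ, E) (A₀.H w) x₀ = 0 := by
    rw [hw, A₀.dH_smul hcP.smooth, hx]
    exact smul_zero _
  have hNB : (tts A).Norm Γ := ⟨hq.strict _, hnorm⟩
  obtain ⟨S⟩ := exists_slice (tts A) x₀ (fun κ h => A.free x₀ κ h)
  obtain ⟨g, hgs, hg0, hgx, hginv, c, hc, hgrow⟩ := exists_fun hq hNB S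
  set φ := extChartAt 𝓘(ℝ, E) x₀ with hφ
  set z₀ : E := φ x₀ with hz₀
  have hsz : φ.symm z₀ = x₀ := extChartAt_to_inv x₀
  have htgt : φ.target ∈ 𝓝 z₀ := extChartAt_target_mem_nhds x₀
  have hle2 : (2 : WithTop ℕ∞) ≤ ∞ := WithTop.coe_le_coe.2 (le_top : (2 : ℕ∞) ≤ ⊤)
  have hqs : ContMDiff 𝓘(ℝ, E) 𝓘(ℝ, E) ∞ q := hq.contMDiff
  have hsm : ∀ f : P → ℝ, ContMDiff 𝓘(ℝ, E) 𝓘(ℝ, ℝ) ∞ f → ∀ z ∈ φ.target,
      ContDiffAt ℝ ∞ (f ∘ φ.symm) z := fun f hf z hz =>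
    (hf.contMDiffAt.comp _ ((contMDiffOn_extChartAt_symm x₀).contMDiffAt
      ((isOpen_extChartAt_target x₀).mem_nhds hz))).contDiffAt
  have hz₀t : z₀ ∈ φ.target := mem_of_mem_nhds htgt
  have hFs : ContMDiff 𝓘(ℝ, E) 𝓘(ℝ, ℝ) ∞ ((tts A).H w) :=
    (tts A).smooth_H (hq.isContact_pull hα).smooth w
  set F : E → ℝ := (tts A).H w ∘ φ.symm with hF
  set a₀ : E → ℝ := (fun p => h₀ (q p)) ∘ φ.symm with ha₀
  set gt : E → ℝ := (fun p => g (q p)) ∘ φ.symm with hgt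
  have hFi : ContDiffAt ℝ ∞ F z₀ := hsm _ hFs z₀ hz₀t
  have hai : ContDiffAt ℝ ∞ a₀ z₀ := hsm _ (hs₀.comp hqs) z₀ hz₀t
  have hgi : ContDiffAt ℝ ∞ gt z₀ := hsm _ (hgs.comp hqs) z₀ hz₀t
  set F₀ : E → ℝ := fun z => a₀ z * F z with hF₀
  have hF₀e : F₀ = A₀.H w ∘ φ.symm := rfl
  have hF₀i : ContDiffAt ℝ ∞ F₀ z₀ := hai.mul hFi
  have hF₀1 : F₀ z₀ = 1 := by
    rw [hF₀e]
    show A₀.H w (φ.symm z₀) = 1
    rw [hsz, hw1]
  have hF₀d : fderiv ℝ F₀ z₀ = 0 := by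
    have h1 := dForm_eq_fderiv (A₀.smooth_H hcP.smooth w) x₀
    rw [hF₀e]
    exact h1.symm.trans hw2
  have ha₀pos : 0 < a₀ z₀ := hpos₀ _
  have hFpos : 0 < F z₀ := by
    have h1 : a₀ z₀ * F z₀ = 1 := hF₀1
    by_contra hno
    push Not at hno
    have := mul_nonpos_of_nonneg_of_nonpos ha₀pos.le hno
    linarith
  -- the function g in the chart
  have hgt0 : gt z₀ = 0 := by
    show g (q (φ.symm z₀)) = 0
    rw [hsz, hgx]
  have hgtd : fderiv ℝ gt z₀ = 0 := by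
    have h1 : IsLocalMin gt z₀ := Filter.Eventually.of_forall fun z => by
      rw [hgt0]
      exact hg0 _
    exact h1.fderiv_eq_zero
  have hgtg : ∀ᶠ e in 𝓝 (0 : EuclideanSpace ℝ (Fin S.d)), c * ‖e‖ ^ 2 ≤ gt (z₀ + S.j e) := by
    have hcs : Filter.Tendsto (sl x₀ S.j) (𝓝 0) (𝓝 z₀) := by
      have := (contDiff_sl x₀ S.j).continuous.tendsto 0
      rwa [sl_zero] at this
    have h1 : Filter.Tendsto (fun e => φ.symm (sl x₀ S.j e)) (𝓝 0) (𝓝 x₀) := by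
      have h2 : ContinuousAt φ.symm z₀ :=
        ((contMDiffOn_extChartAt_symm (n := ∞) x₀).contMDiffAt htgt).continuousAt
      have h3 := h2.tendsto
      rw [hsz] at h3
      exact h3.comp hcs
    have h2 : ∀ᶠ e in 𝓝 (0 : EuclideanSpace ℝ (Fin S.d)), (e, (0 : Fin m → ℝ)) ∈ S.Φ.source :=
      (Continuous.prodMk_left (0 : Fin m → ℝ)).continuousAt.eventually_mem
        (S.Φ.open_source.mem_nhds S.mem)
    filter_upwards [h1.eventually hgrow, h2] with e he1 he2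
    have h3 := S.σ_pm he2
    rw [pm_e] at h3
    rw [h3] at he1
    exact he1
  have hpos2 : ∀ u, 2 * c * ‖u‖ ^ 2 ≤ fderiv ℝ (fderiv ℝ gt) z₀ (S.j u) (S.j u) := fun u =>
    snd_ge_of_growth S.j (hgi.of_le hle2) hgt0 hgtg u
  -- the pencil
  set D₀ := fderiv ℝ (fderiv ℝ F₀) z₀ with hD₀
  set D₁ := fderiv ℝ (fderiv ℝ gt) z₀ with hD₁
  let B₀ : EuclideanSpace ℝ (Fin S.d) →ₗ[ℝ] EuclideanSpace ℝ (Fin S.d) →ₗ[ℝ] ℝ :=
    LinearMap.mk₂ ℝ (fun u v => D₀ (S.j u) (S.j v)) (fun a b c => by simp) (fun a b c => by simp)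
      (fun a b c => by simp) (fun a b c => by simp)
  let B₁ : EuclideanSpace ℝ (Fin S.d) →ₗ[ℝ] EuclideanSpace ℝ (Fin S.d) →ₗ[ℝ] ℝ :=
    LinearMap.mk₂ ℝ (fun u v => D₁ (S.j u) (S.j v)) (fun a b c => by simp) (fun a b c => by simp)
      (fun a b c => by simp) (fun a b c => by simp)
  obtain ⟨ε₁, hε₁, hpen⟩ := pencil B₀ B₁ (fun u hu => by
    have h1 := hpos2 u
    have h2 : fderiv ℝ (fderiv ℝ gt) z₀ (S.j u) (S.j u) = 0 := hu u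
    rw [h2] at h1
    have h3 : ‖u‖ ^ 2 ≤ 0 := by
      by_contra hno
      push Not at hno
      have : 0 < 2 * c * ‖u‖ ^ 2 := by positivity
      linarith
    have h4 : ‖u‖ = 0 := by
      have := sq_nonneg ‖u‖
      exact pow_eq_zero_iff two_ne_zero |>.1 (le_antisymm h3 this)
    exact norm_eq_zero.1 h4)
  -- g is bounded
  obtain ⟨G₀, hG₀⟩ : ∃ G₀ : ℝ, ∀ y, g y ≤ G₀ := by
    obtain ⟨G₀, hG₀⟩ := (isCompact_univ.image hgs.continuous).bddAbove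
    exact ⟨G₀, fun y => hG₀ ⟨y, mem_univ y, rfl⟩⟩
  have hGn : 0 ≤ |G₀| := abs_nonneg _
  have hε₂ : 0 < (|G₀| + 1)⁻¹ := by positivity
  refine ⟨g, hgs, hg0, hginv, min ε₁ (|G₀| + 1)⁻¹, lt_min hε₁ hε₂, fun ε hε0 hεε => ⟨?_, ?_⟩⟩
  · intro y
    have h1 : |ε| < (|G₀| + 1)⁻¹ := hεε.trans_le (min_le_right _ _)
    have h2 : |ε * g y| < 1 := by
      rw [abs_mul, abs_of_nonneg (hg0 y)]
      have h3 : g y ≤ |G₀| := (hG₀ y).trans (le_abs_self _)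
      calc |ε| * g y ≤ |ε| * |G₀| := mul_le_mul_of_nonneg_left h3 (abs_nonneg _)
        _ ≤ (|G₀| + 1)⁻¹ * |G₀| := mul_le_mul_of_nonneg_right h1.le hGn
        _ < 1 := by
          rw [inv_mul_lt_one₀ (by positivity)]
          linarith
    have h3 := (abs_lt.1 h2).1
    linarith
  -- the nondegenerate critical point
  set a' : E → ℝ := fun z => a₀ z * (1 + ε * gt z) with ha'
  have ha'i : ContDiffAt ℝ ∞ a' z₀ :=
    hai.mul (contDiffAt_const.add (contDiffAt_const.mul hgi))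
  set f₀ : E → ℝ := fun z => a' z * F z with hf₀
  have hf₀i : ContDiffAt ℝ ∞ f₀ z₀ := ha'i.mul hFi
  have hf₀e : f₀ = fun z => (1 + ε * gt z) * F₀ z := by
    ext1 z
    simp only [hf₀, ha', hF₀]
    ring
  obtain ⟨hb1, hb2⟩ := one_add_mul (hgi.of_le hle2) ε
  have hbi : ContDiffAt ℝ 2 (fun z => 1 + ε * gt z) z₀ :=
    (contDiffAt_const.add (contDiffAt_const.mul (hgi.of_le hle2)))
  have hf₀d : fderiv ℝ f₀ z₀ = 0 := by
    refine ContinuousLinearMap.ext fun u => ?_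
    rw [hf₀e, fst_mul (hbi.differentiableAt (by simp)) (hF₀i.differentiableAt (by simp)), hF₀d,
      hb1, hgtd]
    simp
  have hf₀2 : ∀ u v, fderiv ℝ (fderiv ℝ f₀) z₀ u v = D₀ u v + ε * D₁ u v := by
    intro u v
    rw [hf₀e, snd_mul hbi (hF₀i.of_le hle2), hF₀d, hb1, hb2, hgtd, hgt0, hF₀1]
    simp only [mul_zero, add_zero, one_mul, smul_zero, _root_.zero_apply, zero_mul,
      _root_.smul_apply, smul_eq_mul]
    rfl
  have hnd : ∀ u : EuclideanSpace ℝ (Fin S.d), (∀ v : EuclideanSpace ℝ (Fin S.d),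
      fderiv ℝ (fderiv ℝ f₀) z₀ (S.j u) (S.j v) = 0) → u = 0 := by
    intro u hu
    refine hpen ε hε0 (hεε.trans_le (min_le_left _ _)) u fun v => ?_
    have h1 := hu v
    rw [hf₀2] at h1
    exact h1
  -- neighbourhoods
  obtain ⟨K, hK, hKz⟩ := eventually_bounded hFi
  have hFcont : ∀ᶠ z in 𝓝 z₀, 0 < F z := hFi.continuousAt.eventually (lt_mem_nhds hFpos)
  have hW : {e : EuclideanSpace ℝ (Fin S.d) | (e, (0 : Fin m → ℝ)) ∈ S.Φ.source ∧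
      0 < F (sl x₀ S.j e)} ∈ 𝓝 (0 : EuclideanSpace ℝ (Fin S.d)) := by
    have h2 : ∀ᶠ e in 𝓝 (0 : EuclideanSpace ℝ (Fin S.d)), (e, (0 : Fin m → ℝ)) ∈ S.Φ.source :=
      (Continuous.prodMk_left (0 : Fin m → ℝ)).continuousAt.eventually_mem
        (S.Φ.open_source.mem_nhds S.mem)
    have hcs : Filter.Tendsto (sl x₀ S.j) (𝓝 0) (𝓝 z₀) := by
      have := (contDiff_sl x₀ S.j).continuous.tendsto 0
      rwa [sl_zero] at this
    exact h2.and (hcs.eventually hFcont)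
  obtain ⟨r₁, hr₁, hr₁b⟩ := Metric.eventually_nhds_iff_ball.1 (hKz.and
    (show ∀ᶠ z in 𝓝 z₀, z ∈ φ.target from htgt))
  obtain ⟨r, hr, hrr₁, δ', hδ', hcrit⟩ := exists_crit_near S.j hf₀i hf₀d hnd hW hr₁
  refine ⟨x₀, r, δ' / (4 * K), hr, by positivity, fun z hz =>
    (hr₁b z (ball_subset_ball hrr₁ hz)).2, fun h hs hpos hinv hclose => ?_⟩
  set ah : E → ℝ := (fun p => h (q p)) ∘ φ.symm with hah
  have hclose' : ∀ z ∈ ball z₀ r, |ah z - a' z| ≤ δ' / (4 * K) ∧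
      ‖fderiv ℝ ah z - fderiv ℝ a' z‖ ≤ δ' / (4 * K) ∧
      ‖fderiv ℝ (fderiv ℝ ah) z - fderiv ℝ (fderiv ℝ a') z‖ ≤ δ' / (4 * K) := fun z hz =>
    hclose z hz
  have h4K : 4 * K * (δ' / (4 * K)) = δ' := by field_simp
  obtain ⟨e, heW, heb, he1, he2⟩ := hcrit (fun z => ah z * F z) (fun z hz => by
      have hzt := (hr₁b z (ball_subset_ball hrr₁ hz)).2
      exact ((hsm _ (hs.comp hqs) z hzt).mul (hsm _ hFs z hzt)).of_le hle2) (fun z hz => by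
      obtain ⟨⟨k1, k2, k3, k4⟩, hzt⟩ := hr₁b z (ball_subset_ball hrr₁ hz)
      obtain ⟨l1, l2, l3⟩ := hclose' z hz
      have ha'z : ContDiffAt ℝ 2 a' z :=
        ((hsm _ (hs₀.comp hqs) z hzt).mul (contDiffAt_const.add
          (contDiffAt_const.mul (hsm _ (hgs.comp hqs) z hzt)))).of_le hle2
      have := close_mul ((hsm _ (hs.comp hqs) z hzt).of_le hle2) ha'z k1 k2 k3 k4 l1 l2 l3
      rw [h4K] at this
      exact this)
  exact ⟨sl x₀ S.j e, heb, fun R hR U hU => infinite_of_slice hα hq hm A hnorm S (w := w) hs hpos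
    hinv hR heW.1 heW.2 he1 he2 hU⟩

end Run7.h21.GO
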